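import Mathlib

/-!
# Weak Greedy Algorithm for the bilinear dictionary

For a weakness sequence `τ` (with `0 ≤ τ k ≤ 1` for `k ≥ 1`) the Weak Greedy Algorithm with
weakness sequence `τ` converges for the bilinear dictionary in `L₂([0,1]²)` if and only if `τ`
does not belong to Temlyakov's class `𝒱`.

Sufficiency is proved for every Hilbert space and every dictionary (`wga_converges`).
For necessity (`exists_bad_run`), a residual sequence is built explicitly: the main part is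
`∑ k_J ⊗ 1_J` over dyadic intervals `J` at level `s`; during stage `s` every vector `k_J'` with `J'`
at level `s+1` is rotated by `π/2` into a fresh direction in many small steps, used only at times
with small weakness parameter; at every other time a reserve rank one summand of exactly the
right size, prepared in the initial element, is removed.
-/

open Finset Filter Topology MeasureTheory
open scoped InnerProductSpace ENNReal

namespace Pool.Agent.Results.MP_8ec86e_an.BilinearWGA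

/-! ## Definitions used in the statement -/

/-- Lebesgue measure on `[0,1]`. -/
noncomputable def leb : Measure ℝ := volume.restrict (Set.Icc 0 1)

/-- The real Hilbert space `L₂([0,1])`. -/
abbrev L2Interval : Type := Lp ℝ 2 leb

/-- The real Hilbert space `L₂([0,1]²)`. -/
abbrev L2Square : Type := Lp ℝ 2 (leb.prod leb)

/-- The inner product of `L₂([0,1]²)`. -/
noncomputable def ip (f g : L2Square) : ℝ := ⟪f, g⟫_ℝ

/-- The function `F` on the square is (almost everywhere) the product `u(x)v(y)`. -/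
def IsProduct (F : L2Square) (u v : L2Interval) : Prop :=
  ∀ᵐ p : ℝ × ℝ ∂(leb.prod leb), F p = u p.1 * v p.2

/-- The bilinear dictionary `Π₂` in `L₂([0,1]²)`: all products `u(x)v(y)` of two functions of
norm one in `L₂([0,1])`. -/
def bilinearDictionary : Set L2Square :=
  {g | ∃ u v : L2Interval, ‖u‖ = 1 ∧ ‖v‖ = 1 ∧ IsProduct g u v}

/-- `sup` over `g ∈ Π₂` of `|⟨f, g⟩|`. -/
noncomputable def supInner (f : L2Square) : ℝ := ⨆ g : bilinearDictionary, |ip f g|

/-- One greedy step: `f - ⟨f, φ⟩ φ`. -/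
noncomputable def remove (f φ : L2Square) : L2Square := f - ip f φ • φ

/-- `r` is the sequence of residuals `f_m` of a realization of the Weak Greedy Algorithm with
weakness sequence `τ = (τ k)_{k ≥ 1}` applied to `f`. -/
def IsResidualSequence (τ : ℕ → ℝ) (f : L2Square) (r : ℕ → L2Square) : Prop :=
  r 0 = f ∧ ∀ m : ℕ, ∃ φ ∈ bilinearDictionary,
    τ (m + 1) * supInner (r m) ≤ |ip (r m) φ| ∧ r (m + 1) = remove (r m) φ

/-- The Weak Greedy Algorithm with weakness sequence `τ` converges for `Π₂`: for every `f` and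
every realization, the approximants `G_m = f - f_m` tend to `f`. -/
def WGAConverges (τ : ℕ → ℝ) : Prop :=
  ∀ (f : L2Square) (r : ℕ → L2Square),
    IsResidualSequence τ f r → Tendsto (fun m => f - r m) atTop (𝓝 f)

/-- Temlyakov's class `𝒱` of sequences `(x k)_{k ≥ 1}`. -/
def ClassV (x : ℕ → ℝ) : Prop :=
  ∃ q : ℕ → ℕ, q 0 = 0 ∧ StrictMono q ∧
    Summable (fun s : ℕ => (2 : ℝ) ^ (s + 1) / ((q (s + 1) : ℝ) - (q s : ℝ))) ∧
    Summable (fun s : ℕ => ((2 : ℝ) ^ (s + 1))⁻¹ * ∑ k ∈ Finset.Icc 1 (q (s + 1)), x k ^ 2)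

/-! ## Numeric part of sufficiency -/

/-- recursive summability -/
lemma summable_of_half (v z : ℕ → ℝ) (hv : ∀ s, 0 ≤ v s) (hz : Summable z) (hz0 : ∀ s, 0 ≤ z s)
    (h : ∀ s, v (s + 1) ≤ v s / 2 + z s) : Summable v := by
  refine summable_of_sum_range_le (c := 2 * v 0 + 2 * ∑' s, z s) hv ?_
  intro n
  have key : ∀ n, ∑ i ∈ range n, v i ≤ v 0 + (∑ i ∈ range n, v i) / 2 + ∑ i ∈ range n, z i := by
    intro n
    induction n with
    | zero => simpa using hv 0
    | succ n ih =>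
      have h1 : ∑ i ∈ range (n + 1), v i = (∑ i ∈ range n, v (i + 1)) + v 0 := sum_range_succ' v n
      have h2 : ∑ i ∈ range n, v (i + 1) ≤ ∑ i ∈ range n, (v i / 2 + z i) :=
        sum_le_sum (fun i _ => h i)
      rw [sum_add_distrib, ← sum_div] at h2
      have h3 : ∑ i ∈ range n, v i ≤ ∑ i ∈ range (n + 1), v i := by
        rw [sum_range_succ]; linarith [hv n]
      have h4 : ∑ i ∈ range n, z i ≤ ∑ i ∈ range (n + 1), z i := by
        rw [sum_range_succ]; linarith [hz0 n]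
      linarith
  have h5 := key n
  have h6 : ∑ i ∈ range n, z i ≤ ∑' s, z s := hz.sum_le_tsum _ (fun i _ => hz0 i)
  linarith

lemma four_pow_pos' (s : ℕ) : 1 ≤ 4 ^ s := Nat.one_le_pow _ _ (by norm_num)

lemma sum_Icc_one_eq (x : ℕ → ℝ) (n : ℕ) :
    ∑ k ∈ Finset.Icc 1 n, x k = ∑ k ∈ range n, x (k + 1) := by
  induction n with
  | zero => simp
  | succ n ih => rw [Finset.sum_Icc_succ_top (by omega), ih, sum_range_succ]

lemma classV_of_summable_sq (x : ℕ → ℝ) (hx : Summable (fun k => x (k + 1) ^ 2)) : ClassV x := by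
  refine ⟨fun s => 4 ^ s - 1, by simp, ?_, ?_, ?_⟩
  · apply strictMono_nat_of_lt_succ
    intro n
    have h1 := four_pow_pos' n
    have h2 : 4 ^ (n + 1) = 4 * 4 ^ n := by ring
    omega
  · have : (fun s : ℕ => (2 : ℝ) ^ (s + 1) / (((4 ^ (s + 1) - 1 : ℕ) : ℝ) - ((4 ^ s - 1 : ℕ) : ℝ))) =
        fun s : ℕ => (2 / 3) * (1 / 2 : ℝ) ^ s := by
      funext s
      rw [Nat.cast_sub (four_pow_pos' _), Nat.cast_sub (four_pow_pos' _)]
      push_cast
      have h4 : (4 : ℝ) ^ s = 2 ^ s * 2 ^ s := by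
        rw [← mul_pow]; norm_num
      have h2 : (2 : ℝ) ^ s ≠ 0 := by positivity
      have h3 : (4 : ℝ) ^ (s + 1) - 1 - (4 ^ s - 1) = 3 * (2 ^ s * 2 ^ s) := by
        rw [pow_succ, h4]; ring
      rw [h3, pow_succ, one_div, inv_pow]
      field_simp
    rw [this]
    exact (summable_geometric_of_lt_one (by norm_num) (by norm_num)).mul_left _
  · have hb : ∀ n, ∑ k ∈ Finset.Icc 1 n, x k ^ 2 ≤ ∑' k, x (k + 1) ^ 2 := by
      intro n
      rw [sum_Icc_one_eq (fun k => x k ^ 2)]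
      exact hx.sum_le_tsum _ (fun i _ => sq_nonneg _)
    refine Summable.of_nonneg_of_le (fun s => ?_) (fun s => ?_)
      (((summable_geometric_of_lt_one (r := 1/2) (by norm_num) (by norm_num)).mul_left
        (∑' k, x (k + 1) ^ 2)))
    · have : 0 ≤ ∑ k ∈ Finset.Icc 1 (4 ^ (s + 1) - 1), x k ^ 2 := sum_nonneg (fun i _ => sq_nonneg _)
      positivity
    · have h1 := hb (4 ^ (s + 1) - 1)
      have h0 : 0 ≤ ∑' k, x (k + 1) ^ 2 := tsum_nonneg (fun i => sq_nonneg _)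
      have h2 : ((2 : ℝ) ^ (s + 1))⁻¹ ≤ (1 / 2) ^ s := by
        rw [one_div, inv_pow]
        apply inv_anti₀ (by positivity)
        exact pow_le_pow_right₀ (by norm_num) (by omega)
      calc ((2 : ℝ) ^ (s + 1))⁻¹ * ∑ k ∈ Finset.Icc 1 (4 ^ (s + 1) - 1), x k ^ 2
          ≤ ((2 : ℝ) ^ (s + 1))⁻¹ * ∑' k, x (k + 1) ^ 2 := by gcongr
        _ ≤ (1 / 2) ^ s * ∑' k, x (k + 1) ^ 2 := by gcongr
        _ = _ := by ring

/-- Summation of nonneg sequence over disjoint consecutive blocks. -/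
lemma summable_blocks (u : ℕ → ℝ) (hu0 : ∀ n, 0 ≤ u n) (hu : Summable u) (q : ℕ → ℕ)
    (hq : Monotone q) : Summable (fun s => ∑ k ∈ Finset.Ico (q s) (q (s + 1)), u k) := by
  refine summable_of_sum_range_le (c := ∑' k, u k) (fun s => sum_nonneg (fun i _ => hu0 i)) ?_
  intro n
  have : ∑ s ∈ range n, ∑ k ∈ Finset.Ico (q s) (q (s + 1)), u k =
      ∑ k ∈ Finset.Ico (q 0) (q n), u k := by
    induction n with
    | zero => simp
    | succ n ih =>
      rw [sum_range_succ, ih, Finset.sum_Ico_consecutive]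
      · exact hq (Nat.zero_le n)
      · exact hq (Nat.le_succ n)
  rw [this]
  exact hu.sum_le_tsum _ (fun i _ => hu0 i)

/-- the key numeric lemma for sufficiency -/
lemma classV_of_le (a x : ℕ → ℝ) (ha0 : ∀ n, 0 ≤ a n) (hx0 : ∀ n, 0 ≤ x (n + 1))
    (ha : Summable (fun n => a n ^ 2)) (ε : ℝ) (hε : 0 < ε) (M : ℕ)
    (h : ∀ m, M ≤ m → ε * x (m + 1) ≤ a m * ∑ j ∈ range (m + 1), a j) : ClassV x := by
  by_cases hsa : Summable a
  · -- bounded partial sums
    apply classV_of_summable_sq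
    set S := ∑' j, a j with hS
    have hS0 : 0 ≤ S := tsum_nonneg ha0
    have : Summable (fun k => x (k + M + 1) ^ 2) := by
      have hshift : Summable (fun k => (S / ε) ^ 2 * a (k + M) ^ 2) :=
        ((summable_nat_add_iff M).2 ha).mul_left _
      refine Summable.of_nonneg_of_le (fun k => sq_nonneg _) (fun k => ?_) hshift
      have h1 := h (k + M) (by omega)
      have h2 : ∑ j ∈ range (k + M + 1), a j ≤ S := hsa.sum_le_tsum _ (fun i _ => ha0 i)
      have h3 : a (k + M) * ∑ j ∈ range (k + M + 1), a j ≤ a (k + M) * S := by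
        gcongr; exact ha0 _
      have h4 : x (k + M + 1) ≤ (S / ε) * a (k + M) := by
        rw [div_mul_eq_mul_div, le_div_iff₀ hε]
        linarith
      rw [← mul_pow]
      exact pow_le_pow_left₀ (hx0 _) h4 2
    exact (summable_nat_add_iff M).1 (by simpa [add_assoc, add_comm, add_left_comm] using this)
  · -- unbounded partial sums
    set P : ℕ → ℝ := fun n => ∑ j ∈ range n, a j with hP
    have hPsucc : ∀ n, P (n + 1) = P n + a n := fun n => sum_range_succ a n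
    have hP0 : P 0 = 0 := by simp [hP]
    have hPmono : Monotone P := monotone_nat_of_le_succ (fun n => by rw [hPsucc]; linarith [ha0 n])
    have hunb : ∀ C : ℝ, ∃ n, C ≤ P n := by
      intro C
      by_contra hcon
      push Not at hcon
      exact hsa (summable_of_sum_range_le ha0 (fun n => (hcon n).le))
    set T := ∑' n, a n ^ 2 with hT
    set A := Real.sqrt T with hA
    have hT0 : 0 ≤ T := tsum_nonneg (fun n => sq_nonneg _)
    have hA0 : 0 ≤ A := Real.sqrt_nonneg _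
    have haA : ∀ n, a n ≤ A := by
      intro n
      apply Real.le_sqrt_of_sq_le
      exact ha.le_tsum n (fun i _ => sq_nonneg _)
    set θ := Real.sqrt 2 with hθ
    have hθsq : θ ^ 2 = 2 := Real.sq_sqrt (by norm_num)
    have hθ1 : 1.4 ≤ θ := Real.le_sqrt_of_sq_le (by norm_num)
    have hθpos : 0 < θ := by linarith
    have hθpow1 : ∀ s : ℕ, 1 ≤ θ ^ s := fun s => one_le_pow₀ (by linarith)
    have hθpow2 : ∀ s : ℕ, (θ ^ s) ^ 2 = 2 ^ s := by
      intro s; rw [← pow_mul, mul_comm, pow_mul, hθsq]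
    set D := 3 * (A + 1) with hD
    have hDpos : 0 < D := by positivity
    classical
    set q : ℕ → ℕ := fun s => if s = 0 then 0 else Nat.find (hunb (D * θ ^ s)) with hq
    have hq0 : q 0 = 0 := by simp [hq]
    have hq_ge : ∀ s, D * θ ^ (s + 1) ≤ P (q (s + 1)) := by
      intro s
      simp only [hq, Nat.succ_ne_zero, if_false]
      exact Nat.find_spec (hunb (D * θ ^ (s + 1)))
    have hq_lt : ∀ s m, m < q (s + 1) → P m < D * θ ^ (s + 1) := by
      intro s m hm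
      simp only [hq, Nat.succ_ne_zero, if_false] at hm
      have := Nat.find_min (hunb (D * θ ^ (s + 1))) hm
      linarith
    have hq_le : ∀ s, P (q s) ≤ D * θ ^ s + A := by
      intro s
      cases s with
      | zero => rw [hq0, hP0]; positivity
      | succ s =>
        rcases Nat.eq_zero_or_pos (q (s + 1)) with h0 | h0
        · rw [h0, hP0]; positivity
        · obtain ⟨m, hm⟩ : ∃ m, q (s + 1) = m + 1 := ⟨q (s + 1) - 1, by omega⟩
          have h1 := hq_lt s m (by omega)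
          rw [hm, hPsucc]
          linarith [haA m]
    have hdiff : ∀ s, θ ^ s ≤ P (q (s + 1)) - P (q s) := by
      intro s
      have h1 := hq_ge s
      have h2 := hq_le s
      have h3 := hθpow1 s
      rw [pow_succ] at h1
      nlinarith [mul_nonneg hA0 (sub_nonneg.2 h3), mul_nonneg hDpos.le (sub_nonneg.2 hθ1),
        mul_nonneg (mul_nonneg hDpos.le (sub_nonneg.2 hθ1)) (by positivity : (0:ℝ) ≤ θ ^ s)]
    have hqlt : ∀ s, q s < q (s + 1) := by
      intro s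
      by_contra hcon
      push Not at hcon
      have h1 := hPmono hcon
      have h2 := hdiff s
      have h3 := hθpow1 s
      linarith
    have hqm : StrictMono q := strictMono_nat_of_lt_succ hqlt
    have hPdiff : ∀ s, P (q (s + 1)) - P (q s) = ∑ k ∈ Finset.Ico (q s) (q (s + 1)), a k := by
      intro s
      rw [Finset.sum_Ico_eq_sub _ (hqlt s).le]
    have hσ : Summable (fun s => ∑ k ∈ Finset.Ico (q s) (q (s + 1)), a k ^ 2) :=
      summable_blocks (fun k => a k ^ 2) (fun n => sq_nonneg _) ha q hqm.monotone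
    refine ⟨q, hq0, hqm, ?_, ?_⟩
    · refine Summable.of_nonneg_of_le (fun s => ?_) (fun s => ?_) (hσ.mul_left 2)
      · have : (0 : ℝ) < (q (s + 1) : ℝ) - q s := by
          have := hqlt s
          have h' : (q s : ℝ) < q (s + 1) := by exact_mod_cast this
          linarith
        positivity
      · have hpos : (0 : ℝ) < (q (s + 1) : ℝ) - q s := by
          have := hqlt s
          have h' : (q s : ℝ) < q (s + 1) := by exact_mod_cast this
          linarith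
        rw [div_le_iff₀ hpos]
        have h1 := sq_sum_le_card_mul_sum_sq (s := Finset.Ico (q s) (q (s + 1))) (f := a)
        rw [Nat.card_Ico, Nat.cast_sub (hqlt s).le] at h1
        have h2 : (θ ^ s) ^ 2 ≤ (∑ k ∈ Finset.Ico (q s) (q (s + 1)), a k) ^ 2 := by
          rw [← hPdiff]
          exact pow_le_pow_left₀ (by positivity) (hdiff s) 2
        rw [hθpow2] at h2
        rw [pow_succ]
        nlinarith
    · set v : ℕ → ℝ := fun s => ((2 : ℝ) ^ (s + 1))⁻¹ * ∑ k ∈ Finset.Icc 1 (q (s + 1)), x k ^ 2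
        with hv
      set C := ∑ m ∈ range M, x (m + 1) ^ 2 with hC
      have hC0 : 0 ≤ C := sum_nonneg (fun i _ => sq_nonneg _)
      have hz : Summable (fun s => ((D + A) / ε) ^ 2 *
          ∑ k ∈ Finset.Ico (q (s + 1)) (q (s + 1 + 1)), a k ^ 2 + C * (1 / 2 : ℝ) ^ s) :=
        (((summable_nat_add_iff 1).2 hσ).mul_left _).add
          ((summable_geometric_of_lt_one (by norm_num) (by norm_num)).mul_left _)
      refine summable_of_half v _ (fun s => ?_) hz (fun s => ?_) (fun s => ?_)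
      · have : 0 ≤ ∑ k ∈ Finset.Icc 1 (q (s + 1)), x k ^ 2 := sum_nonneg (fun i _ => sq_nonneg _)
        positivity
      · have : 0 ≤ ∑ k ∈ Finset.Ico (q (s + 1)) (q (s + 1 + 1)), a k ^ 2 :=
          sum_nonneg (fun i _ => sq_nonneg _)
        positivity
      · simp only [hv]
        rw [sum_Icc_one_eq (fun k => x k ^ 2), sum_Icc_one_eq (fun k => x k ^ 2)]
        have hsplit : ∑ k ∈ range (q (s + 1 + 1)), x (k + 1) ^ 2 =
            ∑ k ∈ range (q (s + 1)), x (k + 1) ^ 2 +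
            ∑ k ∈ Finset.Ico (q (s + 1)) (q (s + 1 + 1)), x (k + 1) ^ 2 := by
          rw [Finset.sum_range_add_sum_Ico _ (hqlt (s + 1)).le]
        rw [hsplit]
        have hblock : ∑ k ∈ Finset.Ico (q (s + 1)) (q (s + 1 + 1)), x (k + 1) ^ 2 ≤
            2 ^ (s + 1 + 1) * (((D + A) / ε) ^ 2 *
              ∑ k ∈ Finset.Ico (q (s + 1)) (q (s + 1 + 1)), a k ^ 2) + C := by
          have hpt : ∀ k ∈ Finset.Ico (q (s + 1)) (q (s + 1 + 1)), x (k + 1) ^ 2 ≤
              2 ^ (s + 1 + 1) * ((D + A) / ε) ^ 2 * a k ^ 2 +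
                (if k < M then x (k + 1) ^ 2 else 0) := by
            intro k hk
            rw [Finset.mem_Ico] at hk
            split_ifs with hkM
            · have : 0 ≤ 2 ^ (s + 1 + 1) * ((D + A) / ε) ^ 2 * a k ^ 2 := by positivity
              linarith
            · push Not at hkM
              have h1 := h k hkM
              have h2 : ∑ j ∈ range (k + 1), a j ≤ (D + A) * θ ^ (s + 1 + 1) := by
                have h3 := hq_lt (s + 1) k hk.2
                have h4 : ∑ j ∈ range (k + 1), a j = P k + a k := hPsucc k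
                rw [h4]
                have h5 := haA k
                have h6 := hθpow1 (s + 1 + 1)
                nlinarith
              have h3 : x (k + 1) ≤ (D + A) / ε * θ ^ (s + 1 + 1) * a k := by
                have h4 : ε * x (k + 1) ≤ a k * ((D + A) * θ ^ (s + 1 + 1)) := by
                  refine h1.trans ?_
                  gcongr
                  exact ha0 k
                have h5 : (D + A) / ε * θ ^ (s + 1 + 1) * a k =
                    (a k * ((D + A) * θ ^ (s + 1 + 1))) / ε := by ring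
                rw [h5, le_div_iff₀ hε]
                linarith
              have h4 := pow_le_pow_left₀ (hx0 k) h3 2
              rw [mul_pow, mul_pow, hθpow2] at h4
              linarith
          refine (sum_le_sum hpt).trans ?_
          rw [sum_add_distrib, ← mul_sum]
          have hCb : ∑ k ∈ Finset.Ico (q (s + 1)) (q (s + 1 + 1)),
              (if k < M then x (k + 1) ^ 2 else 0) ≤ C := by
            rw [← sum_filter]
            apply sum_le_sum_of_subset_of_nonneg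
            · intro k hk
              simp only [Finset.mem_filter] at hk
              exact Finset.mem_range.2 hk.2
            · intro i _ _; exact sq_nonneg _
          linarith
        have hpos : (0 : ℝ) < 2 ^ (s + 1 + 1) := by positivity
        have e1 : ((2 : ℝ) ^ (s + 1 + 1))⁻¹ * (∑ k ∈ range (q (s + 1)), x (k + 1) ^ 2) =
            ((2 : ℝ) ^ (s + 1))⁻¹ * (∑ k ∈ range (q (s + 1)), x (k + 1) ^ 2) / 2 := by
          rw [pow_succ (2 : ℝ) (s + 1)]
          field_simp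
        rw [mul_add, e1]
        have e2 : ((2 : ℝ) ^ (s + 1 + 1))⁻¹ *
            ∑ k ∈ Finset.Ico (q (s + 1)) (q (s + 1 + 1)), x (k + 1) ^ 2 ≤
            ((D + A) / ε) ^ 2 * ∑ k ∈ Finset.Ico (q (s + 1)) (q (s + 1 + 1)), a k ^ 2 +
              C * (1 / 2 : ℝ) ^ s := by
          rw [inv_mul_le_iff₀ hpos]
          refine hblock.trans ?_
          have h7 : C ≤ 2 ^ (s + 1 + 1) * (C * (1 / 2 : ℝ) ^ s) := by
            have h8 : (2 : ℝ) ^ (s + 1 + 1) * (C * (1 / 2 : ℝ) ^ s) = 4 * C := by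
              rw [one_div, inv_pow, pow_succ, pow_succ]
              field_simp
              ring
            rw [h8]; linarith
          rw [mul_add]
          linarith
        linarith


section suff
/-! ## Sufficiency in a general Hilbert space -/

variable {H : Type*} [NormedAddCommGroup H] [InnerProductSpace ℝ H]

lemma step_norm (x φ : H) (hφ : ‖φ‖ = 1) :
    ‖x - ⟪x, φ⟫_ℝ • φ‖ ^ 2 = ‖x‖ ^ 2 - ⟪x, φ⟫_ℝ ^ 2 := by
  rw [norm_sub_sq_real, norm_smul, inner_smul_right, hφ]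
  simp only [Real.norm_eq_abs, mul_one, sq_abs]
  ring

theorem wga_converges [CompleteSpace H] (D : Set H) (hD1 : ∀ g ∈ D, ‖g‖ = 1)
    (hD2 : ∀ x : H, (∀ g ∈ D, ⟪x, g⟫_ℝ = 0) → x = 0)
    (τ : ℕ → ℝ) (hτ0 : ∀ k, 0 ≤ τ (k + 1)) (hτ : ¬ ClassV τ)
    (f : ℕ → H) (hf : ∀ m, ∃ φ ∈ D, (∀ g ∈ D, τ (m + 1) * |⟪f m, g⟫_ℝ| ≤ |⟪f m, φ⟫_ℝ|) ∧
      f (m + 1) = f m - ⟪f m, φ⟫_ℝ • φ) : Tendsto f atTop (𝓝 0) := by
  choose φ hφD hφ hstep using hf
  set a : ℕ → ℝ := fun m => |⟪f m, φ m⟫_ℝ| with ha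
  have ha0 : ∀ n, 0 ≤ a n := fun n => abs_nonneg _
  have hnorm : ∀ m, ‖f (m + 1)‖ ^ 2 = ‖f m‖ ^ 2 - a m ^ 2 := by
    intro m
    rw [hstep m, step_norm _ _ (hD1 _ (hφD m)), ha]
    simp only [sq_abs]
  have hsum : ∀ n, ∑ i ∈ range n, a i ^ 2 = ‖f 0‖ ^ 2 - ‖f n‖ ^ 2 := by
    intro n
    induction n with
    | zero => simp
    | succ n ih => rw [sum_range_succ, ih, hnorm]; ring
  have hasq : Summable (fun n => a n ^ 2) :=
    summable_of_sum_range_le (c := ‖f 0‖ ^ 2) (fun n => sq_nonneg _)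
      (fun n => by rw [hsum]; linarith [sq_nonneg ‖f n‖])
  -- squared norms are antitone and bounded below, hence converge
  have hanti : Antitone (fun n => ‖f n‖ ^ 2) :=
    antitone_nat_of_succ_le (fun n => by rw [hnorm]; linarith [sq_nonneg (a n)])
  have hbdd : BddBelow (Set.range (fun n => ‖f n‖ ^ 2)) := ⟨0, by rintro _ ⟨n, rfl⟩; positivity⟩
  have hconv := tendsto_atTop_ciInf hanti hbdd
  set ℓ := ⨅ n, ‖f n‖ ^ 2 with hℓ
  have hge : ∀ n, ℓ ≤ ‖f n‖ ^ 2 := fun n => ciInf_le hbdd n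
  -- telescoping
  have htel : ∀ n k, f n - f (n + k) = ∑ j ∈ range k, ⟪f (n + j), φ (n + j)⟫_ℝ • φ (n + j) := by
    intro n k
    induction k with
    | zero => simp
    | succ k ih =>
      rw [sum_range_succ, ← ih, ← add_assoc, hstep (n + k)]
      abel
  have hinner : ∀ n k, τ (n + k + 1) * |⟪f n - f (n + k), f (n + k)⟫_ℝ| ≤
      a (n + k) * ∑ j ∈ range (n + k + 1), a j := by
    intro n k
    have h1 : |⟪f n - f (n + k), f (n + k)⟫_ℝ| ≤
        ∑ j ∈ range k, a (n + j) * |⟪f (n + k), φ (n + j)⟫_ℝ| := by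
      rw [htel, sum_inner]
      refine (Finset.abs_sum_le_sum_abs _ _).trans ?_
      apply sum_le_sum
      intro j _
      rw [real_inner_smul_left, abs_mul, real_inner_comm (φ (n + j)) (f (n + k))]
    have h2 : τ (n + k + 1) * ∑ j ∈ range k, a (n + j) * |⟪f (n + k), φ (n + j)⟫_ℝ| ≤
        ∑ j ∈ range k, a (n + j) * a (n + k) := by
      rw [mul_sum]
      apply sum_le_sum
      intro j _
      have h3 := hφ (n + k) (φ (n + j)) (hφD _)
      have h4 := mul_le_mul_of_nonneg_left h3 (ha0 (n + j))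
      calc _ = a (n + j) * (τ (n + k + 1) * |⟪f (n + k), φ (n + j)⟫_ℝ|) := by ring
        _ ≤ _ := h4
    have h5 : ∑ j ∈ range k, a (n + j) ≤ ∑ j ∈ range (n + k + 1), a j := by
      have : ∑ j ∈ range (n + k), a j = ∑ j ∈ range n, a j + ∑ j ∈ range k, a (n + j) :=
        sum_range_add _ _ _
      rw [sum_range_succ, this]
      have h6 : 0 ≤ ∑ j ∈ range n, a j := sum_nonneg (fun i _ => ha0 i)
      linarith [ha0 (n + k)]
    calc _ ≤ τ (n + k + 1) * ∑ j ∈ range k, a (n + j) * |⟪f (n + k), φ (n + j)⟫_ℝ| := by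
          gcongr; exact hτ0 _
      _ ≤ _ := h2
      _ = a (n + k) * ∑ j ∈ range k, a (n + j) := by rw [← sum_mul]; ring
      _ ≤ _ := by gcongr
  -- good times
  have hgood : ∀ ε : ℝ, 0 < ε → ∀ M, ∃ m, M ≤ m ∧
      a m * ∑ j ∈ range (m + 1), a j < ε * τ (m + 1) := by
    intro ε hε M
    by_contra hcon
    push Not at hcon
    exact hτ (classV_of_le a τ ha0 hτ0 hasq ε hε M hcon)
  have hcauchy : CauchySeq f := by
    rw [Metric.cauchySeq_iff]
    intro ε hε
    have hsmall2 : ∃ N, ∀ n ≥ N, ∀ n' ≥ N, ‖f n - f n'‖ < ε := by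
      have h1 : ∀ᶠ n in atTop, ‖f n‖ ^ 2 < ℓ + (ε / 4) ^ 2 / 2 :=
        hconv.eventually (gt_mem_nhds (by have : 0 < (ε / 4) ^ 2 := by positivity
                                          linarith))
      obtain ⟨N, hN⟩ := eventually_atTop.1 h1
      refine ⟨N, fun n hn n' hn' => ?_⟩
      obtain ⟨m, hm, hm2⟩ := hgood ((ε / 4) ^ 2 / 4) (by positivity) (max n n')
      have common : ∀ n, N ≤ n → n ≤ m → ‖f n - f m‖ ≤ ε / 4 := by
        intro n hn hnm
        obtain ⟨k, rfl⟩ := Nat.exists_eq_add_of_le hnm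
        have h2 := hinner n k
        have h3 : 0 ≤ a (n + k) * ∑ j ∈ range (n + k + 1), a j :=
          mul_nonneg (ha0 _) (sum_nonneg (fun i _ => ha0 i))
        have hεp : 0 < (ε / 4) ^ 2 := by positivity
        have hτpos : 0 < τ (n + k + 1) := by
          by_contra hcon
          push Not at hcon
          nlinarith
        have h4 : |⟪f n - f (n + k), f (n + k)⟫_ℝ| < (ε / 4) ^ 2 / 4 := by
          by_contra hcon
          push Not at hcon
          nlinarith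
        have h5 : ‖f n‖ ^ 2 = ‖f n - f (n + k)‖ ^ 2 + 2 * ⟪f n - f (n + k), f (n + k)⟫_ℝ +
            ‖f (n + k)‖ ^ 2 := by
          conv_lhs => rw [← sub_add_cancel (f n) (f (n + k))]
          rw [norm_add_sq_real]
        have h6 := hN n hn
        have h7 := hge (n + k)
        have h8 := abs_lt.1 h4
        have h9 : ‖f n - f (n + k)‖ ^ 2 ≤ (ε / 4) ^ 2 := by linarith [h8.1, h8.2]
        exact abs_le_of_sq_le_sq' h9 (by positivity) |>.2
      have c1 := common n hn ((le_max_left _ _).trans hm)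
      have c2 := common n' hn' ((le_max_right _ _).trans hm)
      calc ‖f n - f n'‖ = ‖(f n - f m) - (f n' - f m)‖ := by congr 1; abel
        _ ≤ ‖f n - f m‖ + ‖f n' - f m‖ := norm_sub_le _ _
        _ ≤ ε / 4 + ε / 4 := add_le_add c1 c2
        _ < ε := by linarith
    obtain ⟨N, hN⟩ := hsmall2
    exact ⟨N, fun m hm n hn => by rw [dist_eq_norm]; exact hN m hm n hn⟩
  obtain ⟨x, hx⟩ := cauchySeq_tendsto_of_complete hcauchy
  -- the limit is zero
  have hx0 : x = 0 := by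
    by_contra hne
    have : ∃ g ∈ D, ⟪x, g⟫_ℝ ≠ 0 := by
      by_contra hcon
      push Not at hcon
      exact hne (hD2 x hcon)
    obtain ⟨g, hgD, hg⟩ := this
    have hpos : 0 < |⟪x, g⟫_ℝ| := abs_pos.2 hg
    have hlim : Tendsto (fun m => |⟪f m, g⟫_ℝ|) atTop (𝓝 |⟪x, g⟫_ℝ|) :=
      ((hx.inner tendsto_const_nhds).abs)
    have hev : ∀ᶠ m in atTop, |⟪x, g⟫_ℝ| / 2 < |⟪f m, g⟫_ℝ| :=
      hlim.eventually (lt_mem_nhds (by linarith))
    obtain ⟨N, hN⟩ := eventually_atTop.1 hev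
    apply hτ
    apply classV_of_summable_sq
    set c := |⟪x, g⟫_ℝ| / 2 with hc
    have hcpos : 0 < c := by positivity
    have : Summable (fun k => τ (k + N + 1) ^ 2) := by
      have hshift : Summable (fun k => (1 / c) ^ 2 * a (k + N) ^ 2) :=
        ((summable_nat_add_iff N).2 hasq).mul_left _
      refine Summable.of_nonneg_of_le (fun k => sq_nonneg _) (fun k => ?_) hshift
      have h1 := hφ (k + N) g hgD
      have h2 := hN (k + N) (by omega)
      have h3 : τ (k + N + 1) * c ≤ a (k + N) := by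
        refine le_trans ?_ h1
        gcongr
        exact hτ0 _
      rw [← mul_pow]
      apply pow_le_pow_left₀ (hτ0 _)
      rw [one_div, inv_mul_eq_div, le_div_iff₀ hcpos]
      exact h3
    exact (summable_nat_add_iff N).1 (by simpa [add_assoc, add_comm, add_left_comm] using this)
  rw [hx0] at hx
  exact hx


end suff
/-! ## Choice of the stages for necessity -/

lemma schedule (τ : ℕ → ℝ) (hV : ClassV τ) :
    ∃ (s₀ : ℕ) (Q : ℕ → ℕ) (N : ℕ → ℕ), Q 0 = 0 ∧ StrictMono Q ∧ (∀ p, 1 ≤ N p) ∧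
      (∀ p, 2 ^ (s₀ + p + 1) * N p ≤
        (((Finset.Ioc (Q p) (Q (p + 1))).filter (fun k => 3 * (N p : ℝ) * τ k ≤ 1)).card)) ∧
      (∀ n, ∑ p ∈ range n, 1 / (N p : ℝ) ≤ 1 / 5) ∧
      Summable (fun p : ℕ => ((2 : ℝ) ^ (s₀ + p))⁻¹ *
        ∑ k ∈ Finset.Ioc (Q p) (Q (p + 1)), τ k ^ 2) := by
  obtain ⟨q, hq0, hqm, hb, hA⟩ := hV
  set b : ℕ → ℝ := fun s => (2 : ℝ) ^ (s + 1) / ((q (s + 1) : ℝ) - (q s : ℝ)) with hbdef
  set A : ℕ → ℝ := fun s => ((2 : ℝ) ^ (s + 1))⁻¹ * ∑ k ∈ Finset.Icc 1 (q (s + 1)), τ k ^ 2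
    with hAdef
  have hqpos : ∀ s, (0 : ℝ) < (q (s + 1) : ℝ) - q s := by
    intro s
    have h' : (q s : ℝ) < q (s + 1) := by exact_mod_cast hqm (Nat.lt_succ_self s)
    linarith
  have hbpos : ∀ s, 0 < b s := fun s => div_pos (by positivity) (hqpos s)
  have hA0 : ∀ s, 0 ≤ A s := fun s =>
    mul_nonneg (by positivity) (sum_nonneg (fun i _ => sq_nonneg _))
  set x : ℕ → ℝ := fun s => 5 * (A s + b s) with hx
  have hxs : Summable x := (hA.add hb).mul_left 5
  have hxpos : ∀ s, 0 < x s := fun s => by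
    have := hbpos s; have := hA0 s; simp only [hx]; positivity
  obtain ⟨s₁, hs₁⟩ : ∃ s₁, ∑' k, x (k + s₁) < 1 / 10 := by
    have h := tendsto_sum_nat_add x
    have h2 := h.eventually (gt_mem_nhds (show (0 : ℝ) < 1 / 10 by norm_num))
    obtain ⟨N, hN⟩ := eventually_atTop.1 h2
    exact ⟨N, hN N le_rfl⟩
  have hxs1 : Summable (fun k => x (k + s₁)) := (summable_nat_add_iff s₁).2 hxs
  have hxle : ∀ p, x (p + s₁) ≤ 1 / 10 := fun p =>
    (hxs1.le_tsum p (fun i _ => (hxpos _).le)).trans hs₁.le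
  set N : ℕ → ℕ := fun p => ⌊1 / x (p + s₁)⌋₊ with hN
  have hN1 : ∀ p, (N p : ℝ) * x (p + s₁) ≤ 1 := by
    intro p
    have h1 : (N p : ℝ) ≤ 1 / x (p + s₁) := Nat.floor_le (by have := hxpos (p + s₁); positivity)
    rwa [le_div_iff₀ (hxpos _)] at h1
  have hN2 : ∀ p, 1 / (2 * x (p + s₁)) ≤ N p := by
    intro p
    have h1 : 1 / x (p + s₁) < N p + 1 := Nat.lt_floor_add_one _
    have h2 := hxpos (p + s₁)
    have h3 := hxle p
    have h4 : 2 ≤ 1 / x (p + s₁) := by rw [le_div_iff₀ h2]; linarith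
    have h5 : 1 / (2 * x (p + s₁)) = (1 / x (p + s₁)) / 2 := by
      rw [div_div, mul_comm]
    rw [h5]; linarith
  have hNpos : ∀ p, (0 : ℝ) < N p := fun p =>
    lt_of_lt_of_le (by have := hxpos (p + s₁); positivity) (hN2 p)
  set Q : ℕ → ℕ := fun p => if p = 0 then 0 else q (s₁ + p) with hQ
  have hQ0 : Q 0 = 0 := by simp [hQ]
  have hQs : ∀ p, Q (p + 1) = q (p + s₁ + 1) := by
    intro p; simp only [hQ, Nat.succ_ne_zero, if_false]; congr 1; omega
  have hQle : ∀ p, Q p ≤ q (p + s₁) := by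
    intro p
    cases p with
    | zero => rw [hQ0]; exact Nat.zero_le _
    | succ p => rw [hQs]; exact le_of_eq (by congr 1; omega)
  have hQm : StrictMono Q := by
    apply strictMono_nat_of_lt_succ
    intro p
    rw [hQs]
    exact (hQle p).trans_lt (hqm (Nat.lt_succ_self _))
  refine ⟨s₁ + 1, Q, N, hQ0, hQm, fun p => Nat.succ_le_of_lt (Nat.cast_pos.1 (hNpos p)), ?_, ?_, ?_⟩
  · intro p
    set s := p + s₁ with hs
    set J := Finset.Ioc (q s) (q (s + 1)) with hJ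
    have hJI : J ⊆ Finset.Ioc (Q p) (Q (p + 1)) := by
      rw [hJ, hQs]
      apply Finset.Ioc_subset_Ioc_left (hQle p)
    set slow := J.filter (fun k => 3 * (N p : ℝ) * τ k ≤ 1) with hslow
    set fast := J.filter (fun k => ¬ (3 * (N p : ℝ) * τ k ≤ 1)) with hfast
    have hcard : slow.card + fast.card = q (s + 1) - q s := by
      rw [hslow, hfast, Finset.card_filter_add_card_filter_not, hJ, Nat.card_Ioc]
    have hle : slow.card ≤ (((Finset.Ioc (Q p) (Q (p + 1))).filter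
        (fun k => 3 * (N p : ℝ) * τ k ≤ 1)).card) :=
      Finset.card_le_card (Finset.filter_subset_filter _ hJI)
    refine le_trans ?_ hle
    have hfc : (fast.card : ℝ) ≤ 9 * (N p : ℝ) ^ 2 * (2 ^ (s + 1) * A s) := by
      have h1 : 2 ^ (s + 1) * A s = ∑ k ∈ Finset.Icc 1 (q (s + 1)), τ k ^ 2 := by
        simp only [hAdef]
        rw [← mul_assoc, mul_inv_cancel₀ (by positivity), one_mul]
      rw [h1]
      have h2 : ∑ k ∈ fast, (1 : ℝ) ≤ ∑ k ∈ fast, 9 * (N p : ℝ) ^ 2 * τ k ^ 2 := by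
        apply sum_le_sum
        intro k hk
        rw [hfast, Finset.mem_filter] at hk
        have h3 := not_le.1 hk.2
        nlinarith
      rw [sum_const, nsmul_eq_mul, mul_one, ← mul_sum] at h2
      refine h2.trans ?_
      apply mul_le_mul_of_nonneg_left _ (by positivity)
      apply sum_le_sum_of_subset_of_nonneg
      · intro k hk
        rw [hfast, Finset.mem_filter, hJ, Finset.mem_Ioc] at hk
        rw [Finset.mem_Icc]
        omega
      · intro i _ _; exact sq_nonneg _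
    have hcardR : (slow.card : ℝ) + fast.card = q (s + 1) - q s := by
      have h1 : (q s) ≤ q (s + 1) := (hqm (Nat.lt_succ_self s)).le
      have h2 : ((slow.card + fast.card : ℕ) : ℝ) = ((q (s + 1) - q s : ℕ) : ℝ) := by rw [hcard]
      rw [Nat.cast_sub h1] at h2
      push_cast at h2
      exact h2
    have hbs : (q (s + 1) : ℝ) - q s = 2 ^ (s + 1) / b s := by
      simp only [hbdef]
      have := hqpos s
      field_simp
    have hNA : (N p : ℝ) * A s ≤ 1 / 5 := by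
      have h1 := hN1 p
      have h2 := hbpos s
      have h3 := hNpos p
      simp only [hx] at h1
      nlinarith [mul_pos h3 h2]
    have hNb : (N p : ℝ) * b s ≤ 1 / 5 := by
      have h1 := hN1 p
      have h2 := hA0 s
      have h3 := hNpos p
      simp only [hx] at h1
      nlinarith [mul_nonneg h3.le h2]
    have hmain : 2 * (N p : ℝ) + 9 * (N p : ℝ) ^ 2 * A s ≤ 1 / b s := by
      rw [le_div_iff₀ (hbpos s)]
      have h1 : ((N p : ℝ) * A s) * ((N p : ℝ) * b s) ≤ (1 / 5) * (1 / 5) :=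
        mul_le_mul hNA hNb (mul_nonneg (hNpos p).le (hbpos s).le) (by norm_num)
      nlinarith
    have hgoal : ((2 ^ (s₁ + 1 + p + 1) * N p : ℕ) : ℝ) ≤ (slow.card : ℝ) := by
      have e1 : s₁ + 1 + p + 1 = s + 1 + 1 := by omega
      rw [e1]
      push_cast
      have h1 : (slow.card : ℝ) = 2 ^ (s + 1) / b s - fast.card := by rw [← hbs]; linarith
      rw [h1]
      have h2 : (2 : ℝ) ^ (s + 1) / b s = 2 ^ (s + 1) * (1 / b s) := by ring
      rw [h2, pow_succ (2 : ℝ) (s + 1)]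
      have h3 : (0 : ℝ) < 2 ^ (s + 1) := by positivity
      nlinarith [mul_le_mul_of_nonneg_left hmain h3.le]
    exact_mod_cast hgoal
  · intro n
    have h1 : ∀ p ∈ range n, 1 / (N p : ℝ) ≤ 2 * x (p + s₁) := by
      intro p _
      have h2 := hN2 p
      have h3 := hxpos (p + s₁)
      rw [div_le_iff₀ (by positivity)] at h2
      rw [div_le_iff₀ (hNpos p)]
      linarith
    refine (sum_le_sum h1).trans ?_
    rw [← mul_sum]
    have h2 : ∑ p ∈ range n, x (p + s₁) ≤ ∑' k, x (k + s₁) :=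
      hxs1.sum_le_tsum _ (fun i _ => (hxpos _).le)
    linarith
  · refine Summable.of_nonneg_of_le (fun p => ?_) (fun p => ?_) ((summable_nat_add_iff s₁).2 hA)
    · exact mul_nonneg (by positivity) (sum_nonneg (fun i _ => sq_nonneg _))
    · have e1 : s₁ + 1 + p = p + s₁ + 1 := by omega
      rw [e1]
      apply mul_le_mul_of_nonneg_left _ (by positivity)
      rw [hQs]
      apply sum_le_sum_of_subset_of_nonneg
      · intro k hk
        rw [Finset.mem_Ioc] at hk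
        rw [Finset.mem_Icc]
        omega
      · intro i _ _; exact sq_nonneg _


section nec
/-! ## The construction -/

variable {E1 E2 H : Type*} [NormedAddCommGroup E1] [InnerProductSpace ℝ E1]
  [NormedAddCommGroup E2] [InnerProductSpace ℝ E2] [NormedAddCommGroup H] [InnerProductSpace ℝ H]

/-- rotating vector -/
noncomputable def vec (e : ℕ → ℕ → E1) (N : ℕ) (r : ℝ) (s l i : ℕ) : E1 :=
  (r * Real.cos (Real.pi / (2 * N)) ^ l) •
    (Real.cos (l * (Real.pi / (2 * N))) • e s (i / 2) +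
      Real.sin (l * (Real.pi / (2 * N))) • e (s + 1) i)

/-- main part of the state -/
noncomputable def Mst (T : E1 →ₗ[ℝ] E2 →ₗ[ℝ] H) (e : ℕ → ℕ → E1) (h : ℕ → ℕ → E2)
    (N : ℕ) (r : ℝ) (s j : ℕ) : H :=
  ∑ i ∈ range (2 ^ (s + 1)), T (vec e N r s (min (j - i * N) N) i) (h (s + 1) i)

lemma sum_pairs (F : ℕ → H) (n : ℕ) :
    ∑ i ∈ range (2 * n), F i = ∑ i ∈ range n, (F (2 * i) + F (2 * i + 1)) := by
  induction n with
  | zero => simp
  | succ n ih =>
    rw [sum_range_succ, ← ih, show 2 * (n + 1) = 2 * n + 1 + 1 by ring, sum_range_succ,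
      sum_range_succ]
    abel

variable (T : E1 →ₗ[ℝ] E2 →ₗ[ℝ] H) (hT : ∀ u v u' v', ⟪T u v, T u' v'⟫_ℝ = ⟪u, u'⟫_ℝ * ⟪v, v'⟫_ℝ)
  (e : ℕ → ℕ → E1) (nn : ℕ → E1)
  (he : Orthonormal ℝ (Sum.elim (fun p : ℕ × ℕ => e p.1 p.2) nn))
  (h : ℕ → ℕ → E2) (g : ℕ → E2)
  (hh : ∀ s, ∀ i < 2 ^ s, ∀ j < 2 ^ s, ⟪h s i, h s j⟫_ℝ = if i = j then ((2 : ℝ) ^ (s + 1))⁻¹ else 0)
  (htree : ∀ s, ∀ i < 2 ^ s, h s i = h (s + 1) (2 * i) + h (s + 1) (2 * i + 1))
  (hg : Orthonormal ℝ g)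
  (hhg : ∀ s, ∀ i < 2 ^ s, ∀ l, ⟪h s i, g l⟫_ℝ = 0)

include he in
lemma inner_e_e (s i s' i' : ℕ) : ⟪e s i, e s' i'⟫_ℝ = if (s = s' ∧ i = i') then 1 else 0 := by
  have h1 := orthonormal_iff_ite.1 he (Sum.inl (s, i)) (Sum.inl (s', i'))
  simpa using h1

include he in
lemma inner_e_n (s i l : ℕ) : ⟪e s i, nn l⟫_ℝ = 0 := by
  have h1 := orthonormal_iff_ite.1 he (Sum.inl (s, i)) (Sum.inr l)
  simpa using h1

include he in
lemma inner_n_n (l l' : ℕ) : ⟪nn l, nn l'⟫_ℝ = if l = l' then 1 else 0 := by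
  have h1 := orthonormal_iff_ite.1 he (Sum.inr l) (Sum.inr l')
  simpa using h1

include htree in
/-- end of a stage is the start of the next one -/
lemma Mst_end (N N' : ℕ) (hN : 1 ≤ N) (r : ℝ) (s : ℕ) :
    Mst T e h N r s (2 ^ (s + 1) * N) =
      Mst T e h N' (r * Real.cos (Real.pi / (2 * N)) ^ N) (s + 1) 0 := by
  have hNR : (N : ℝ) ≠ 0 := by positivity
  have hang : (N : ℝ) * (Real.pi / (2 * N)) = Real.pi / 2 := by field_simp
  unfold Mst
  rw [show (2 : ℕ) ^ (s + 1 + 1) = 2 * 2 ^ (s + 1) by ring, sum_pairs]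
  apply sum_congr rfl
  intro i hi
  rw [mem_range] at hi
  have h1 : min (2 ^ (s + 1) * N - i * N) N = N := by
    apply min_eq_right
    rw [← Nat.sub_mul]
    exact Nat.le_mul_of_pos_left _ (by omega)
  rw [h1, htree (s + 1) i hi]
  have e1 : 2 * i / 2 = i := by omega
  have e2 : (2 * i + 1) / 2 = i := by omega
  simp only [vec, Nat.zero_sub, Nat.zero_min, hang, Real.cos_pi_div_two, Real.sin_pi_div_two,
    zero_smul, zero_add, one_smul, pow_zero, mul_one, Nat.cast_zero, zero_mul, Real.cos_zero,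
    Real.sin_zero, add_zero, e1, e2, map_add]

/-- index arithmetic -/
lemma min_step_ne (N j i : ℕ) (hN : 1 ≤ N) (hi : i ≠ j / N) :
    min (j + 1 - i * N) N = min (j - i * N) N := by
  rcases lt_or_gt_of_ne hi with hlt | hgt
  · have h1 : (i + 1) * N ≤ j := by
      calc (i + 1) * N ≤ (j / N) * N := Nat.mul_le_mul_right _ hlt
        _ ≤ j := Nat.div_mul_le_self j N
    have h2 : (i + 1) * N = i * N + N := by ring
    rw [min_eq_right (by omega), min_eq_right (by omega)]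
  · have h1 : j < i * N := by
      have h4 := Nat.div_add_mod j N
      have h5 := Nat.mod_lt j (show 0 < N by omega)
      have h6 : (j / N + 1) * N ≤ i * N := Nat.mul_le_mul_right _ hgt
      nlinarith
    have h2 : j + 1 - i * N = 0 := by omega
    have h3 : j - i * N = 0 := by omega
    rw [h2, h3]

lemma min_step_eq (N j : ℕ) (hN : 1 ≤ N) :
    min (j - (j / N) * N) N = j % N ∧ min (j + 1 - (j / N) * N) N = j % N + 1 := by
  have h1 := Nat.div_add_mod j N
  have h2 := Nat.mod_lt j (show 0 < N by omega)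
  have h3 : (j / N) * N = N * (j / N) := Nat.mul_comm _ _
  rw [h3]
  constructor
  · rw [min_eq_left (by omega)]; omega
  · rw [min_eq_left (by omega)]; omega


/-- the direction used in a rotation step -/
noncomputable def dirU (e : ℕ → ℕ → E1) (N : ℕ) (s l i : ℕ) : E1 :=
  Real.sin ((l + 1 : ℕ) * (Real.pi / (2 * N))) • e s (i / 2) -
    Real.cos ((l + 1 : ℕ) * (Real.pi / (2 * N))) • e (s + 1) i

include he in
lemma norm_comb (s i : ℕ) (a b : ℝ) : ‖a • e s (i / 2) + b • e (s + 1) i‖ ^ 2 = a ^ 2 + b ^ 2 := by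
  rw [← real_inner_self_eq_norm_sq]
  simp only [inner_add_left, inner_add_right, real_inner_smul_left, real_inner_smul_right,
    inner_e_e e nn he]
  simp
  ring

include he in
lemma norm_vec (N : ℕ) (r : ℝ) (s l i : ℕ) :
    ‖vec e N r s l i‖ ^ 2 = (r * Real.cos (Real.pi / (2 * N)) ^ l) ^ 2 := by
  unfold vec
  rw [norm_smul, mul_pow, norm_comb e nn he, Real.cos_sq_add_sin_sq, mul_one, Real.norm_eq_abs,
    sq_abs]

include he in
lemma norm_dirU (N s l i : ℕ) : ‖dirU e N s l i‖ = 1 := by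
  have h1 : ‖dirU e N s l i‖ ^ 2 = 1 := by
    unfold dirU
    rw [sub_eq_add_neg, ← neg_smul, norm_comb e nn he, neg_sq, add_comm, Real.cos_sq_add_sin_sq]
  have h2 : 0 ≤ ‖dirU e N s l i‖ := norm_nonneg _
  nlinarith [h1, h2, sq_nonneg (‖dirU e N s l i‖ - 1)]

include he in
lemma inner_vec_dirU (N : ℕ) (r : ℝ) (s l i : ℕ) :
    ⟪vec e N r s l i, dirU e N s l i⟫_ℝ =
      r * Real.cos (Real.pi / (2 * N)) ^ l * Real.sin (Real.pi / (2 * N)) := by
  unfold vec dirU
  simp only [inner_add_left, inner_sub_right, real_inner_smul_left, real_inner_smul_right,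
    inner_e_e e nn he]
  simp
  have h1 : Real.sin (Real.pi / (2 * N)) = Real.sin (((l : ℝ) + 1) * (Real.pi / (2 * N)) -
      l * (Real.pi / (2 * N))) := by congr 1; ring
  rw [h1, Real.sin_sub]
  ring

lemma vec_sub_vec (N : ℕ) (r : ℝ) (s l i : ℕ) :
    vec e N r s l i - vec e N r s (l + 1) i =
      (r * Real.cos (Real.pi / (2 * N)) ^ l * Real.sin (Real.pi / (2 * N))) • dirU e N s l i := by
  unfold vec dirU
  have h1 : Real.cos (l * (Real.pi / (2 * N))) =
      Real.cos ((l + 1 : ℕ) * (Real.pi / (2 * N))) * Real.cos (Real.pi / (2 * N)) +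
      Real.sin ((l + 1 : ℕ) * (Real.pi / (2 * N))) * Real.sin (Real.pi / (2 * N)) := by
    rw [← Real.cos_sub]; congr 1; push_cast; ring
  have h2 : Real.sin (l * (Real.pi / (2 * N))) =
      Real.sin ((l + 1 : ℕ) * (Real.pi / (2 * N))) * Real.cos (Real.pi / (2 * N)) -
      Real.cos ((l + 1 : ℕ) * (Real.pi / (2 * N))) * Real.sin (Real.pi / (2 * N)) := by
    rw [← Real.sin_sub]; congr 1; push_cast; ring
  rw [h1, h2]
  module

/-- effect of one rotation step on the main part -/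
lemma Mst_succ (N : ℕ) (hN : 1 ≤ N) (r : ℝ) (s j : ℕ) (hj : j < 2 ^ (s + 1) * N) :
    Mst T e h N r s j - Mst T e h N r s (j + 1) =
      (r * Real.cos (Real.pi / (2 * N)) ^ (j % N) * Real.sin (Real.pi / (2 * N))) •
        T (dirU e N s (j % N) (j / N)) (h (s + 1) (j / N)) := by
  unfold Mst
  rw [← sum_sub_distrib]
  have hi0 : j / N ∈ range (2 ^ (s + 1)) := by
    rw [mem_range]
    exact Nat.div_lt_of_lt_mul (by rw [Nat.mul_comm]; exact hj)
  rw [Finset.sum_eq_single (j / N)]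
  · obtain ⟨h1, h2⟩ := min_step_eq N j hN
    rw [h1, h2, ← LinearMap.sub_apply, ← map_sub, vec_sub_vec, map_smul, LinearMap.smul_apply]
  · intro i _ hne
    rw [min_step_ne N j i hN hne, sub_self]
  · intro hcon; exact absurd hi0 hcon

include he in
/-- Bessel inequality in the first variable -/
lemma bessel_u (s : ℕ) (F : Finset ℕ) (u : E1) :
    (∑ i ∈ range (2 ^ s), ⟪e s i, u⟫_ℝ ^ 2) + (∑ i ∈ range (2 ^ (s + 1)), ⟪e (s + 1) i, u⟫_ℝ ^ 2) +
      ∑ l ∈ F, ⟪nn l, u⟫_ℝ ^ 2 ≤ ‖u‖ ^ 2 := by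
  classical
  set A : Finset (ℕ × ℕ) := ({s} : Finset ℕ) ×ˢ range (2 ^ s) ∪ ({s + 1} : Finset ℕ) ×ˢ range (2 ^ (s + 1))
    with hA
  have h1 := he.sum_inner_products_le u (s := A.disjSum F)
  rw [Finset.sum_disjSum] at h1
  simp only [Sum.elim_inl, Sum.elim_inr, Real.norm_eq_abs, sq_abs] at h1
  have h2 : ∑ x ∈ A, ⟪e x.1 x.2, u⟫_ℝ ^ 2 = (∑ i ∈ range (2 ^ s), ⟪e s i, u⟫_ℝ ^ 2) +
      (∑ i ∈ range (2 ^ (s + 1)), ⟪e (s + 1) i, u⟫_ℝ ^ 2) := by
    rw [hA, Finset.sum_union]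
    · rw [Finset.sum_product, Finset.sum_product]
      simp
    · rw [Finset.disjoint_left]
      rintro ⟨a, b⟩ ha hb
      simp at ha hb
      omega
  rw [h2] at h1
  exact h1

include hh hg hhg in
/-- Bessel inequality in the second variable -/
lemma bessel_v (s : ℕ) (F : Finset ℕ) (v : E2) :
    (∑ i ∈ range (2 ^ s), (2 : ℝ) ^ (s + 1) * ⟪h s i, v⟫_ℝ ^ 2) + ∑ l ∈ F, ⟪g l, v⟫_ℝ ^ 2 ≤
      ‖v‖ ^ 2 := by
  classical
  set c : ℝ := Real.sqrt (2 ^ (s + 1)) with hc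
  have hc2 : c * c = 2 ^ (s + 1) := Real.mul_self_sqrt (by positivity)
  have hpos : (0 : ℝ) < 2 ^ (s + 1) := by positivity
  have hw : Orthonormal ℝ (Sum.elim (fun i : Fin (2 ^ s) => c • h s i) g) := by
    rw [orthonormal_iff_ite]
    rintro (i | l) (i' | l')
    · simp only [Sum.elim_inl, real_inner_smul_left, real_inner_smul_right]
      rw [hh s i i.2 i' i'.2]
      by_cases hii : i = i'
      · subst hii
        simp only [if_true, ← mul_assoc, hc2]
        rw [mul_inv_cancel₀ hpos.ne']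
      · have h3 : (i : ℕ) ≠ i' := fun hcon => hii (Fin.ext hcon)
        simp [h3, hii]
    · simp [real_inner_smul_left, hhg s i i.2 l']
    · simp [real_inner_smul_right, real_inner_comm, hhg s i' i'.2 l]
    · simp only [Sum.elim_inr]
      rw [orthonormal_iff_ite.1 hg l l']
      simp
  have h1 := hw.sum_inner_products_le v (s := (Finset.univ : Finset (Fin (2 ^ s))).disjSum F)
  rw [Finset.sum_disjSum] at h1
  simp only [Sum.elim_inl, Sum.elim_inr, Real.norm_eq_abs, sq_abs, real_inner_smul_left] at h1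
  rw [Finset.sum_range]
  refine le_trans (le_of_eq ?_) h1
  congr 1
  apply sum_congr rfl
  intro i _
  rw [mul_pow, sq c, hc2]

lemma sum_pairs_real (F : ℕ → ℝ) (n : ℕ) :
    ∑ i ∈ range (2 * n), F i = ∑ i ∈ range n, (F (2 * i) + F (2 * i + 1)) := by
  induction n with
  | zero => simp
  | succ n ih =>
    rw [sum_range_succ, ← ih, show 2 * (n + 1) = 2 * n + 1 + 1 by ring, sum_range_succ,
      sum_range_succ]
    ring

lemma inner_vec_sq_le (N : ℕ) (r : ℝ) (hr0 : 0 ≤ r) (hr1 : r ≤ 1) (s l i : ℕ) (u : E1) :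
    ⟪vec e N r s l i, u⟫_ℝ ^ 2 ≤ ⟪e s (i / 2), u⟫_ℝ ^ 2 + ⟪e (s + 1) i, u⟫_ℝ ^ 2 := by
  unfold vec
  simp only [inner_add_left, real_inner_smul_left]
  set a := ⟪e s (i / 2), u⟫_ℝ
  set b := ⟪e (s + 1) i, u⟫_ℝ
  set C := Real.cos (l * (Real.pi / (2 * N)))
  set S := Real.sin (l * (Real.pi / (2 * N)))
  have hCS : C ^ 2 + S ^ 2 = 1 := Real.cos_sq_add_sin_sq _
  have hρ : (r * Real.cos (Real.pi / (2 * N)) ^ l) ^ 2 ≤ 1 := by
    rw [mul_pow, ← pow_mul, mul_comm l 2, pow_mul]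
    have h1 : (Real.cos (Real.pi / (2 * N)) ^ 2) ^ l ≤ 1 :=
      pow_le_one₀ (sq_nonneg _) (Real.cos_sq_le_one _)
    have h2 : r ^ 2 ≤ 1 := pow_le_one₀ hr0 hr1
    have h3 : 0 ≤ (Real.cos (Real.pi / (2 * N)) ^ 2) ^ l := by positivity
    have h4 : 0 ≤ r ^ 2 := sq_nonneg _
    nlinarith
  rw [mul_pow]
  have h1 : (C * a + S * b) ^ 2 ≤ a ^ 2 + b ^ 2 := by
    have h2 : a ^ 2 + b ^ 2 - (C * a + S * b) ^ 2 = (S * a - C * b) ^ 2 := by
      have : (C * a + S * b) ^ 2 + (S * a - C * b) ^ 2 = (C ^ 2 + S ^ 2) * (a ^ 2 + b ^ 2) := by ring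
      rw [hCS] at this
      linarith
    nlinarith [sq_nonneg (S * a - C * b)]
  have h2 : 0 ≤ (C * a + S * b) ^ 2 := sq_nonneg _
  nlinarith

include he hh hg hhg hT in
/-- operator norm bound for finite reserve -/
lemma op_bound_fin (N : ℕ) (r : ℝ) (hr0 : 0 ≤ r) (hr1 : r ≤ 1) (s j : ℕ)
    (c : ℝ) (hc0 : 0 ≤ c) (hc : c ^ 2 = ((2 : ℝ) ^ (s + 1))⁻¹) (ρ : ℕ → ℝ) (hρ : ∀ l, |ρ l| ≤ c)
    (F : Finset ℕ) (u : E1) (v : E2) (hu : ‖u‖ = 1) (hv : ‖v‖ = 1) :
    |⟪Mst T e h N r s j + ∑ l ∈ F, ρ l • T (nn l) (g l), T u v⟫_ℝ| ≤ c := by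
  have hcpos : 0 < c := by
    rcases hc0.lt_or_eq with h1 | h1
    · exact h1
    · exfalso
      rw [← h1] at hc
      have : (0 : ℝ) < ((2 : ℝ) ^ (s + 1))⁻¹ := by positivity
      linarith [hc, zero_pow (two_ne_zero) (M₀ := ℝ)]
  have hexp : ⟪Mst T e h N r s j + ∑ l ∈ F, ρ l • T (nn l) (g l), T u v⟫_ℝ =
      ∑ i ∈ range (2 ^ (s + 1)), ⟪vec e N r s (min (j - i * N) N) i, u⟫_ℝ * ⟪h (s + 1) i, v⟫_ℝ +
      ∑ l ∈ F, ρ l * (⟪nn l, u⟫_ℝ * ⟪g l, v⟫_ℝ) := by
    unfold Mst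
    rw [inner_add_left, sum_inner, sum_inner]
    congr 1
    · apply sum_congr rfl; intro i _; rw [hT]
    · apply sum_congr rfl; intro l _; rw [real_inner_smul_left, hT]
  rw [hexp]
  have ht1 : |∑ i ∈ range (2 ^ (s + 1)), ⟪vec e N r s (min (j - i * N) N) i, u⟫_ℝ *
      ⟪h (s + 1) i, v⟫_ℝ| ≤ (c / 2) * ((∑ i ∈ range (2 ^ (s + 1)),
        (⟪e s (i / 2), u⟫_ℝ ^ 2 + ⟪e (s + 1) i, u⟫_ℝ ^ 2) / 2) +
        ∑ i ∈ range (2 ^ (s + 1)), (2 : ℝ) ^ (s + 1 + 1) * ⟪h (s + 1) i, v⟫_ℝ ^ 2) := by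
    refine (Finset.abs_sum_le_sum_abs _ _).trans ?_
    rw [← sum_add_distrib, mul_sum]
    apply sum_le_sum
    intro i _
    have h1 := inner_vec_sq_le e N r hr0 hr1 s (min (j - i * N) N) i u
    set x := ⟪vec e N r s (min (j - i * N) N) i, u⟫_ℝ
    set y := ⟪h (s + 1) i, v⟫_ℝ
    set z := ⟪e s (i / 2), u⟫_ℝ ^ 2 + ⟪e (s + 1) i, u⟫_ℝ ^ 2
    have h2 : (2 : ℝ) ^ (s + 1 + 1) = 2 / c ^ 2 := by
      rw [hc, pow_succ]; field_simp
    rw [h2, abs_mul]
    have h3 : |x| ^ 2 ≤ z := by rw [sq_abs]; exact h1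
    have h4 : c / 2 * (z / 2 + 2 / c ^ 2 * y ^ 2) = (c ^ 2 * z / 4 + y ^ 2) / c := by
      field_simp
      ring
    rw [h4, le_div_iff₀ hcpos, ← sq_abs y]
    nlinarith [sq_nonneg (c * |x| / 2 - |y|), abs_nonneg x, abs_nonneg y, sq_nonneg c,
      mul_le_mul_of_nonneg_left h3 (sq_nonneg c)]
  have ht2 : |∑ l ∈ F, ρ l * (⟪nn l, u⟫_ℝ * ⟪g l, v⟫_ℝ)| ≤
      (c / 2) * (∑ l ∈ F, ⟪nn l, u⟫_ℝ ^ 2 + ∑ l ∈ F, ⟪g l, v⟫_ℝ ^ 2) := by
    refine (Finset.abs_sum_le_sum_abs _ _).trans ?_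
    rw [← sum_add_distrib, mul_sum]
    apply sum_le_sum
    intro l _
    rw [abs_mul, abs_mul]
    have h1 : |ρ l| * (|⟪nn l, u⟫_ℝ| * |⟪g l, v⟫_ℝ|) ≤ c * (|⟪nn l, u⟫_ℝ| * |⟪g l, v⟫_ℝ|) := by
      gcongr; exact hρ l
    have h2 : c * (|⟪nn l, u⟫_ℝ| * |⟪g l, v⟫_ℝ|) ≤
        c / 2 * (⟪nn l, u⟫_ℝ ^ 2 + ⟪g l, v⟫_ℝ ^ 2) := by
      rw [← sq_abs ⟪nn l, u⟫_ℝ, ← sq_abs ⟪g l, v⟫_ℝ]
      nlinarith [sq_nonneg (|⟪nn l, u⟫_ℝ| - |⟪g l, v⟫_ℝ|)]
    linarith
  have hb1 := bessel_u e nn he s F u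
  have hb2 := bessel_v h g hh hg hhg (s + 1) F v
  rw [hu] at hb1
  rw [hv] at hb2
  have hsum : ∑ i ∈ range (2 ^ (s + 1)), (⟪e s (i / 2), u⟫_ℝ ^ 2 + ⟪e (s + 1) i, u⟫_ℝ ^ 2) / 2 ≤
      (∑ i ∈ range (2 ^ s), ⟪e s i, u⟫_ℝ ^ 2) +
        ∑ i ∈ range (2 ^ (s + 1)), ⟪e (s + 1) i, u⟫_ℝ ^ 2 := by
    rw [← sum_div, sum_add_distrib]
    have h1 : ∑ i ∈ range (2 ^ (s + 1)), ⟪e s (i / 2), u⟫_ℝ ^ 2 =
        2 * ∑ i ∈ range (2 ^ s), ⟪e s i, u⟫_ℝ ^ 2 := by
      rw [show (2 : ℕ) ^ (s + 1) = 2 * 2 ^ s by ring, sum_pairs_real, mul_sum]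
      apply sum_congr rfl
      intro i _
      rw [show 2 * i / 2 = i by omega, show (2 * i + 1) / 2 = i by omega]
      ring
    rw [h1]
    have h2 : 0 ≤ ∑ i ∈ range (2 ^ (s + 1)), ⟪e (s + 1) i, u⟫_ℝ ^ 2 :=
      sum_nonneg (fun i _ => sq_nonneg _)
    linarith
  refine (abs_add_le _ _).trans ?_
  nlinarith [mul_le_mul_of_nonneg_left hsum hcpos.le, mul_le_mul_of_nonneg_left hb1 hcpos.le,
    mul_le_mul_of_nonneg_left hb2 hcpos.le]

include he hh hg hhg hT in
/-- operator norm bound for infinite reserve -/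
lemma op_bound (N : ℕ) (r : ℝ) (hr0 : 0 ≤ r) (hr1 : r ≤ 1) (s j : ℕ)
    (c : ℝ) (hc0 : 0 ≤ c) (hc : c ^ 2 = ((2 : ℝ) ^ (s + 1))⁻¹) (ρ : ℕ → ℝ) (hρ : ∀ l, |ρ l| ≤ c)
    (R : H) (hR : HasSum (fun l => ρ l • T (nn l) (g l)) R)
    (u : E1) (v : E2) (hu : ‖u‖ = 1) (hv : ‖v‖ = 1) :
    |⟪Mst T e h N r s j + R, T u v⟫_ℝ| ≤ c := by
  have h1 : Tendsto (fun F : Finset ℕ => |⟪Mst T e h N r s j + ∑ l ∈ F, ρ l • T (nn l) (g l),
      T u v⟫_ℝ|) atTop (𝓝 |⟪Mst T e h N r s j + R, T u v⟫_ℝ|) :=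
    ((tendsto_const_nhds.add hR).inner tendsto_const_nhds).abs
  exact le_of_tendsto' h1 (fun F =>
    op_bound_fin T hT e nn he h g hh hg hhg N r hr0 hr1 s j c hc0 hc ρ hρ F u v hu hv)

include hT in
lemma inner_R_zero (ρ : ℕ → ℝ) (R : H) (hR : HasSum (fun l => ρ l • T (nn l) (g l)) R)
    (u : E1) (v : E2) (huv : ∀ l, ⟪nn l, u⟫_ℝ * ⟪g l, v⟫_ℝ = 0) : ⟪R, T u v⟫_ℝ = 0 := by
  have h1 : HasSum (fun l => ⟪T u v, ρ l • T (nn l) (g l)⟫_ℝ) ⟪T u v, R⟫_ℝ :=
    (innerSL ℝ (T u v)).hasSum hR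
  have h2 : (fun l => ⟪T u v, ρ l • T (nn l) (g l)⟫_ℝ) = fun _ => (0 : ℝ) := by
    funext l
    rw [real_inner_smul_right, real_inner_comm, hT, huv, mul_zero]
  rw [h2] at h1
  rw [real_inner_comm]
  exact h1.unique hasSum_zero

include he in
lemma inner_n_vec (N : ℕ) (r : ℝ) (s l i k : ℕ) : ⟪nn k, vec e N r s l i⟫_ℝ = 0 := by
  unfold vec
  rw [real_inner_comm]
  simp [inner_add_left, real_inner_smul_left, inner_e_n e nn he]

include he in
lemma inner_n_dirU (N : ℕ) (s l i k : ℕ) : ⟪nn k, dirU e N s l i⟫_ℝ = 0 := by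
  unfold dirU
  rw [real_inner_comm]
  simp [inner_sub_left, real_inner_smul_left, inner_e_n e nn he]

include he hh hT in
lemma inner_Mst_dir (N : ℕ) (hN : 1 ≤ N) (r : ℝ) (s j : ℕ) (hj : j < 2 ^ (s + 1) * N) :
    ⟪Mst T e h N r s j, T (dirU e N s (j % N) (j / N)) (h (s + 1) (j / N))⟫_ℝ =
      (r * Real.cos (Real.pi / (2 * N)) ^ (j % N) * Real.sin (Real.pi / (2 * N))) *
        ((2 : ℝ) ^ (s + 1 + 1))⁻¹ := by
  have hi0 : j / N < 2 ^ (s + 1) := Nat.div_lt_of_lt_mul (by rw [Nat.mul_comm]; exact hj)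
  unfold Mst
  rw [sum_inner, Finset.sum_eq_single (j / N)]
  · rw [hT, hh (s + 1) _ hi0 _ hi0, if_pos rfl, (min_step_eq N j hN).1, inner_vec_dirU e nn he]
  · intro i hi hne
    rw [hT, hh (s + 1) _ (mem_range.1 hi) _ hi0, if_neg hne, mul_zero]
  · intro hcon; exact absurd (mem_range.2 hi0) hcon

include he hh hT in
lemma norm_Mst_sq (N : ℕ) (r : ℝ) (s j : ℕ) :
    ‖Mst T e h N r s j‖ ^ 2 = ∑ i ∈ range (2 ^ (s + 1)),
      (r * Real.cos (Real.pi / (2 * N)) ^ (min (j - i * N) N)) ^ 2 * ((2 : ℝ) ^ (s + 1 + 1))⁻¹ := by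
  rw [← real_inner_self_eq_norm_sq]
  conv_lhs => unfold Mst
  rw [sum_inner]
  apply sum_congr rfl
  intro i hi
  rw [inner_sum, Finset.sum_eq_single i]
  · rw [hT, hh (s + 1) _ (mem_range.1 hi) _ (mem_range.1 hi), if_pos rfl,
      real_inner_self_eq_norm_sq, norm_vec e nn he]
  · intro i' hi' hne
    rw [hT, hh (s + 1) _ (mem_range.1 hi) _ (mem_range.1 hi'), if_neg (Ne.symm hne), mul_zero]
  · intro hcon; exact absurd hi hcon

include he hh hT in
lemma norm_state_ge (N : ℕ) (r : ℝ) (s j : ℕ)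
    (hr : ∀ l ≤ N, 3 / 4 ≤ r * Real.cos (Real.pi / (2 * N)) ^ l)
    (ρ : ℕ → ℝ) (R : H) (hR : HasSum (fun l => ρ l • T (nn l) (g l)) R) :
    1 / 4 ≤ ‖Mst T e h N r s j + R‖ ^ 2 := by
  have h1 : ⟪Mst T e h N r s j, R⟫_ℝ = 0 := by
    unfold Mst
    rw [sum_inner]
    apply sum_eq_zero
    intro i _
    rw [real_inner_comm]
    apply inner_R_zero T hT nn g ρ R hR
    intro l
    rw [inner_n_vec e nn he, zero_mul]
  rw [norm_add_sq_real, h1, norm_Mst_sq T hT e nn he h hh]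
  have h2 : ∑ i ∈ range (2 ^ (s + 1)), (9 / 16 : ℝ) * ((2 : ℝ) ^ (s + 1 + 1))⁻¹ ≤
      ∑ i ∈ range (2 ^ (s + 1)),
      (r * Real.cos (Real.pi / (2 * N)) ^ (min (j - i * N) N)) ^ 2 * ((2 : ℝ) ^ (s + 1 + 1))⁻¹ := by
    apply sum_le_sum
    intro i _
    apply mul_le_mul_of_nonneg_right _ (by positivity)
    have := hr (min (j - i * N) N) (min_le_right _ _)
    nlinarith
  rw [sum_const, card_range, nsmul_eq_mul] at h2
  have h3 : ((2 ^ (s + 1) : ℕ) : ℝ) * (9 / 16 * ((2 : ℝ) ^ (s + 1 + 1))⁻¹) = 9 / 32 := by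
    push_cast
    rw [pow_succ (2 : ℝ) (s + 1)]
    field_simp
    norm_num
  rw [h3] at h2
  have h4 : 0 ≤ ‖R‖ ^ 2 := sq_nonneg _
  linarith



/-! contraction factors -/
noncomputable def rfac (N : ℕ → ℕ) : ℕ → ℝ
  | 0 => 1
  | (p + 1) => rfac N p * Real.cos (Real.pi / (2 * N p)) ^ (N p)

lemma ang_bounds (n : ℕ) (hn : 1 ≤ n) : 0 ≤ Real.pi / (2 * n) ∧ Real.pi / (2 * n) ≤ Real.pi / 2 := by
  have h1 : (1 : ℝ) ≤ n := by exact_mod_cast hn
  constructor
  · have := Real.pi_pos; positivity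
  · apply div_le_div_of_nonneg_left Real.pi_pos.le (by norm_num) (by linarith)

lemma cos_ang_nonneg (n : ℕ) (hn : 1 ≤ n) : 0 ≤ Real.cos (Real.pi / (2 * n)) := by
  obtain ⟨h1, h2⟩ := ang_bounds n hn
  exact Real.cos_nonneg_of_mem_Icc ⟨by linarith [Real.pi_pos], h2⟩

lemma cos_pow_ge (n : ℕ) (hn : 1 ≤ n) :
    1 - 5 / 4 * (1 / (n : ℝ)) ≤ Real.cos (Real.pi / (2 * n)) ^ n := by
  have h1 : (1 : ℝ) ≤ n := by exact_mod_cast hn
  have hpi : Real.pi ^ 2 ≤ 10 := by
    have := Real.pi_lt_d2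
    have := Real.pi_pos
    nlinarith
  have h2 : 1 - (Real.pi / (2 * n)) ^ 2 / 2 ≤ Real.cos (Real.pi / (2 * n)) :=
    Real.one_sub_sq_div_two_le_cos
  have h3 := cos_ang_nonneg n hn
  have h4 : -2 ≤ (Real.cos (Real.pi / (2 * n)) - 1) := by linarith
  have h5 := one_add_mul_le_pow h4 n
  have h6 : (1 : ℝ) + (Real.cos (Real.pi / (2 * n)) - 1) = Real.cos (Real.pi / (2 * n)) := by ring
  rw [h6] at h5
  refine le_trans ?_ h5
  have h7 : (Real.pi / (2 * n)) ^ 2 / 2 * n ≤ 5 / 4 * (1 / (n : ℝ)) := by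
    have h8 : (Real.pi / (2 * n)) ^ 2 / 2 * n = Real.pi ^ 2 / 8 * (1 / (n : ℝ)) := by
      field_simp
      ring
    rw [h8]
    have h9 : Real.pi ^ 2 / 8 ≤ 5 / 4 := by linarith
    exact mul_le_mul_of_nonneg_right h9 (by positivity)
  nlinarith

lemma rfac_bounds (N : ℕ → ℕ) (hN : ∀ p, 1 ≤ N p) (hNsum : ∀ n, ∑ p ∈ range n, 1 / (N p : ℝ) ≤ 1 / 5)
    (p : ℕ) : 3 / 4 ≤ rfac N p ∧ rfac N p ≤ 1 := by
  have key : ∀ p, 1 - 5 / 4 * ∑ q ∈ range p, 1 / (N q : ℝ) ≤ rfac N p ∧ rfac N p ≤ 1 ∧ 0 ≤ rfac N p := by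
    intro p
    induction p with
    | zero => simp [rfac]
    | succ p ih =>
      obtain ⟨h1, h2, h3⟩ := ih
      have h4 := cos_pow_ge (N p) (hN p)
      have h5 : Real.cos (Real.pi / (2 * N p)) ^ (N p) ≤ 1 :=
        pow_le_one₀ (cos_ang_nonneg _ (hN p)) (Real.cos_le_one _)
      have h6 : 0 ≤ Real.cos (Real.pi / (2 * N p)) ^ (N p) := pow_nonneg (cos_ang_nonneg _ (hN p)) _
      have h7 : 0 ≤ 1 / (N p : ℝ) := by positivity
      simp only [rfac]
      rw [sum_range_succ]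
      refine ⟨?_, by nlinarith, by positivity⟩
      nlinarith
  obtain ⟨h1, h2, h3⟩ := key p
  exact ⟨by linarith [hNsum p], h2⟩

lemma rfac_pow_ge (N : ℕ → ℕ) (hN : ∀ p, 1 ≤ N p)
    (hNsum : ∀ n, ∑ p ∈ range n, 1 / (N p : ℝ) ≤ 1 / 5) (p l : ℕ) (hl : l ≤ N p) :
    3 / 4 ≤ rfac N p * Real.cos (Real.pi / (2 * N p)) ^ l := by
  have h1 := (rfac_bounds N hN hNsum (p + 1)).1
  simp only [rfac] at h1
  refine h1.trans ?_
  have h2 := (rfac_bounds N hN hNsum p).1
  apply mul_le_mul_of_nonneg_left _ (by linarith)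
  exact pow_le_pow_of_le_one (cos_ang_nonneg _ (hN p)) (Real.cos_le_one _) hl

/-! stage bookkeeping -/
def stage (Q : ℕ → ℕ) (k : ℕ) : ℕ := Nat.findGreatest (fun p => Q p ≤ k) k

lemma stage_le (Q : ℕ → ℕ) (hQ0 : Q 0 = 0) (k : ℕ) : Q (stage Q k) ≤ k :=
  Nat.findGreatest_spec (P := fun p => Q p ≤ k) (m := 0) (Nat.zero_le k) (by rw [hQ0]; exact Nat.zero_le k)

lemma lt_stage (Q : ℕ → ℕ) (hQm : StrictMono Q) (k : ℕ) : k < Q (stage Q k + 1) := by
  by_contra hcon
  push Not at hcon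
  have h1 : stage Q k + 1 ≤ k := (hQm.le_apply).trans hcon
  have h2 : stage Q k + 1 ≤ stage Q k := Nat.le_findGreatest (P := fun p => Q p ≤ k) h1 hcon
  omega

lemma stage_eq (Q : ℕ → ℕ) (hQ0 : Q 0 = 0) (hQm : StrictMono Q) (k p : ℕ) (h1 : Q p ≤ k)
    (h2 : k < Q (p + 1)) : stage Q k = p := by
  have h3 := stage_le Q hQ0 k
  have h4 := lt_stage Q hQm k
  have h5 : p < stage Q k + 1 := hQm.lt_iff_lt.1 (h1.trans_lt h4)
  have h6 : stage Q k < p + 1 := hQm.lt_iff_lt.1 (h3.trans_lt h2)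
  omega

lemma stage_mono (Q : ℕ → ℕ) (hQ0 : Q 0 = 0) (hQm : StrictMono Q) {k k' : ℕ} (h : k ≤ k') :
    stage Q k ≤ stage Q k' := by
  have h3 := stage_le Q hQ0 k
  have h4 := lt_stage Q hQm k'
  have h5 : stage Q k < stage Q k' + 1 := hQm.lt_iff_lt.1 ((h3.trans h).trans_lt h4)
  omega

open Classical in
noncomputable def cnt (Q N : ℕ → ℕ) (τ : ℕ → ℝ) (p k : ℕ) : ℕ :=
  ((Finset.Ioc (Q p) k).filter (fun k => 3 * (N p : ℝ) * τ k ≤ 1)).card

lemma cnt_start (Q N : ℕ → ℕ) (τ : ℕ → ℝ) (p : ℕ) : cnt Q N τ p (Q p) = 0 := by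
  simp [cnt]

lemma cnt_succ (Q N : ℕ → ℕ) (τ : ℕ → ℝ) (p k : ℕ) (hk : Q p ≤ k) :
    (3 * (N p : ℝ) * τ (k + 1) ≤ 1 ∧ cnt Q N τ p (k + 1) = cnt Q N τ p k + 1) ∨
      cnt Q N τ p (k + 1) = cnt Q N τ p k := by
  classical
  unfold cnt
  rw [← Finset.insert_Ioc_right_eq_Ioc_add_one hk, Finset.filter_insert]
  split_ifs with h1
  · left
    refine ⟨h1, ?_⟩
    rw [Finset.card_insert_of_notMem]
    simp
  · right; rfl

/-- rotation counter -/
noncomputable def jj (Q N : ℕ → ℕ) (τ : ℕ → ℝ) (s₀ p k : ℕ) : ℕ :=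
  min (cnt Q N τ p k) (2 ^ (s₀ + p + 1) * N p)

lemma jj_start (Q N : ℕ → ℕ) (τ : ℕ → ℝ) (s₀ p : ℕ) : jj Q N τ s₀ p (Q p) = 0 := by
  simp [jj, cnt_start]

lemma jj_succ (Q N : ℕ → ℕ) (τ : ℕ → ℝ) (s₀ p k : ℕ) (hk : Q p ≤ k) :
    (3 * (N p : ℝ) * τ (k + 1) ≤ 1 ∧ jj Q N τ s₀ p (k + 1) = jj Q N τ s₀ p k + 1 ∧
      jj Q N τ s₀ p k < 2 ^ (s₀ + p + 1) * N p) ∨
      jj Q N τ s₀ p (k + 1) = jj Q N τ s₀ p k := by
  unfold jj
  rcases cnt_succ Q N τ p k hk with ⟨h1, h2⟩ | h1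
  · rw [h2]
    by_cases h3 : cnt Q N τ p k < 2 ^ (s₀ + p + 1) * N p
    · left
      refine ⟨h1, ?_, ?_⟩
      · rw [min_eq_left h3.le, min_eq_left h3]
      · rw [min_eq_left h3.le]; exact h3
    · right
      push Not at h3
      rw [min_eq_right h3, min_eq_right (by omega)]
  · right; rw [h1]

/-- sizes -/
noncomputable def cc (s₀ p : ℕ) : ℝ := Real.sqrt (((2 : ℝ) ^ (s₀ + p + 1))⁻¹)

lemma cc_sq (s₀ p : ℕ) : cc s₀ p ^ 2 = ((2 : ℝ) ^ (s₀ + p + 1))⁻¹ :=
  Real.sq_sqrt (by positivity)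

lemma cc_nonneg (s₀ p : ℕ) : 0 ≤ cc s₀ p := Real.sqrt_nonneg _

lemma cc_anti (s₀ : ℕ) {p p' : ℕ} (h : p ≤ p') : cc s₀ p' ≤ cc s₀ p := by
  apply Real.sqrt_le_sqrt
  apply inv_anti₀ (by positivity)
  exact pow_le_pow_right₀ (by norm_num) (by omega)

/-- reserve coefficients -/
noncomputable def rho (Q N : ℕ → ℕ) (τ : ℕ → ℝ) (s₀ : ℕ) : ℕ → ℝ
  | 0 => 0
  | (k + 1) => if jj Q N τ s₀ (stage Q k) (k + 1) = jj Q N τ s₀ (stage Q k) k then
      τ (k + 1) * cc s₀ (stage Q k) else 0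

lemma rho_bound (Q N : ℕ → ℕ) (τ : ℕ → ℝ) (s₀ : ℕ) (hτ0 : ∀ k, 0 ≤ τ (k + 1))
    (k : ℕ) : |rho Q N τ s₀ (k + 1)| ≤ τ (k + 1) * cc s₀ (stage Q k) := by
  simp only [rho]
  split_ifs
  · rw [abs_of_nonneg (mul_nonneg (hτ0 k) (cc_nonneg _ _))]
  · rw [abs_zero]; exact mul_nonneg (hτ0 k) (cc_nonneg _ _)

lemma rho_summable (Q N : ℕ → ℕ) (τ : ℕ → ℝ) (s₀ : ℕ) (hτ0 : ∀ k, 0 ≤ τ (k + 1))
    (hQ0 : Q 0 = 0) (hQm : StrictMono Q)
    (hsum : Summable (fun p : ℕ => ((2 : ℝ) ^ (s₀ + p))⁻¹ *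
        ∑ k ∈ Finset.Ioc (Q p) (Q (p + 1)), τ k ^ 2)) :
    Summable (fun l => rho Q N τ s₀ l ^ 2) := by
  set B : ℕ → ℝ := fun p : ℕ => ((2 : ℝ) ^ (s₀ + p))⁻¹ *
        ∑ k ∈ Finset.Ioc (Q p) (Q (p + 1)), τ k ^ 2 with hB
  have hB0 : ∀ p, 0 ≤ B p := fun p => mul_nonneg (by positivity) (sum_nonneg (fun i _ => sq_nonneg _))
  have key : ∀ n, ∑ l ∈ range (Q n + 1), rho Q N τ s₀ l ^ 2 ≤ ∑ p ∈ range n, B p := by
    intro n
    induction n with
    | zero => simp [hQ0, rho]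
    | succ n ih =>
      rw [sum_range_succ B n]
      have h1 : ∑ l ∈ range (Q (n + 1) + 1), rho Q N τ s₀ l ^ 2 =
          ∑ l ∈ range (Q n + 1), rho Q N τ s₀ l ^ 2 +
          ∑ l ∈ Finset.Ico (Q n + 1) (Q (n + 1) + 1), rho Q N τ s₀ l ^ 2 := by
        rw [Finset.sum_range_add_sum_Ico]
        have : Q n < Q (n + 1) := hQm (Nat.lt_succ_self n)
        omega
      rw [h1]
      have h2 : ∑ l ∈ Finset.Ico (Q n + 1) (Q (n + 1) + 1), rho Q N τ s₀ l ^ 2 ≤ B n := by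
        have h3 : Finset.Ico (Q n + 1) (Q (n + 1) + 1) = Finset.Ioc (Q n) (Q (n + 1)) := by
          ext x; simp [Finset.mem_Ico, Finset.mem_Ioc]
        rw [h3, hB]
        simp only
        rw [mul_sum]
        apply sum_le_sum
        intro l hl
        rw [Finset.mem_Ioc] at hl
        obtain ⟨k, rfl⟩ : ∃ k, l = k + 1 := ⟨l - 1, by omega⟩
        have h4 := rho_bound Q N τ s₀ hτ0 k
        rw [stage_eq Q hQ0 hQm k n (by omega) (by omega)] at h4
        have h5 : rho Q N τ s₀ (k + 1) ^ 2 ≤ (τ (k + 1) * cc s₀ n) ^ 2 := by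
          rw [← sq_abs]
          exact pow_le_pow_left₀ (abs_nonneg _) h4 2
        refine h5.trans ?_
        rw [mul_pow, cc_sq]
        have h6 : ((2 : ℝ) ^ (s₀ + n + 1))⁻¹ ≤ ((2 : ℝ) ^ (s₀ + n))⁻¹ := by
          apply inv_anti₀ (by positivity)
          exact pow_le_pow_right₀ (by norm_num) (by omega)
        nlinarith [sq_nonneg (τ (k + 1))]
      linarith
  refine summable_of_sum_range_le (c := ∑' p, B p) (fun l => sq_nonneg _) (fun n => ?_)
  have h1 : n ≤ Q n + 1 := (hQm.le_apply).trans (Nat.le_succ _)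
  calc ∑ l ∈ range n, rho Q N τ s₀ l ^ 2 ≤ ∑ l ∈ range (Q n + 1), rho Q N τ s₀ l ^ 2 := by
        apply sum_le_sum_of_subset_of_nonneg
        · exact Finset.range_mono h1
        · intro i _ _; exact sq_nonneg _
    _ ≤ ∑ p ∈ range n, B p := key n
    _ ≤ ∑' p, B p := hsum.sum_le_tsum _ (fun i _ => hB0 i)

lemma orthonormal_hasSum [CompleteSpace H] (G : ℕ → H) (hG : Orthonormal ℝ G) (ρ : ℕ → ℝ)
    (hρ : Summable (fun l => ρ l ^ 2)) : Summable (fun l => ρ l • G l) := by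
  have h1 := hG.orthogonalFamily.summable_iff_norm_sq_summable (fun l => ρ l)
  simp only [LinearIsometry.toSpanSingleton_apply, Real.norm_eq_abs, sq_abs] at h1
  exact h1.2 hρ

theorem exists_bad_run [CompleteSpace H]
    (T : E1 →ₗ[ℝ] E2 →ₗ[ℝ] H) (hT : ∀ u v u' v', ⟪T u v, T u' v'⟫_ℝ = ⟪u, u'⟫_ℝ * ⟪v, v'⟫_ℝ)
    (e : ℕ → ℕ → E1) (nn : ℕ → E1)
    (he : Orthonormal ℝ (Sum.elim (fun p : ℕ × ℕ => e p.1 p.2) nn))
    (h : ℕ → ℕ → E2) (g : ℕ → E2)
    (hh : ∀ s, ∀ i < 2 ^ s, ∀ j < 2 ^ s,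
      ⟪h s i, h s j⟫_ℝ = if i = j then ((2 : ℝ) ^ (s + 1))⁻¹ else 0)
    (htree : ∀ s, ∀ i < 2 ^ s, h s i = h (s + 1) (2 * i) + h (s + 1) (2 * i + 1))
    (hg : Orthonormal ℝ g)
    (hhg : ∀ s, ∀ i < 2 ^ s, ∀ l, ⟪h s i, g l⟫_ℝ = 0)
    (τ : ℕ → ℝ) (hτ0 : ∀ k, 0 ≤ τ (k + 1)) (hτ1 : ∀ k, τ (k + 1) ≤ 1)
    (s₀ : ℕ) (Q N : ℕ → ℕ) (hQ0 : Q 0 = 0) (hQm : StrictMono Q) (hN : ∀ p, 1 ≤ N p)
    (hslow : ∀ p, 2 ^ (s₀ + p + 1) * N p ≤ cnt Q N τ p (Q (p + 1)))
    (hNsum : ∀ n, ∑ p ∈ range n, 1 / (N p : ℝ) ≤ 1 / 5)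
    (hsum : Summable (fun p : ℕ => ((2 : ℝ) ^ (s₀ + p))⁻¹ *
        ∑ k ∈ Finset.Ioc (Q p) (Q (p + 1)), τ k ^ 2)) :
    ∃ f : ℕ → H, (∀ k, ∃ u v, ‖u‖ = 1 ∧ ‖v‖ = 1 ∧
      (∀ u' v', ‖u'‖ = 1 → ‖v'‖ = 1 → τ (k + 1) * |⟪f k, T u' v'⟫_ℝ| ≤ |⟪f k, T u v⟫_ℝ|) ∧
      f (k + 1) = f k - ⟪f k, T u v⟫_ℝ • T u v) ∧ ∀ k, 1 / 4 ≤ ‖f k‖ ^ 2 := by
  -- reserve part
  set G : ℕ → H := fun l => T (nn l) (g l) with hGdef
  have hG : Orthonormal ℝ G := by
    rw [orthonormal_iff_ite]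
    intro i j
    simp only [hGdef]
    rw [hT, inner_n_n e nn he, orthonormal_iff_ite.1 hg i j]
    split_ifs <;> simp
  set ρ := rho Q N τ s₀ with hρdef
  have hρs : Summable (fun l => ρ l ^ 2) := rho_summable Q N τ s₀ hτ0 hQ0 hQm hsum
  set ρk : ℕ → ℕ → ℝ := fun k l => if k < l then ρ l else 0 with hρk
  have hρks : ∀ k, Summable (fun l => ρk k l • G l) := by
    intro k
    apply orthonormal_hasSum G hG
    refine Summable.of_nonneg_of_le (fun l => sq_nonneg _) (fun l => ?_) hρs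
    simp only [hρk]
    split_ifs
    · exact le_rfl
    · rw [zero_pow two_ne_zero]; exact sq_nonneg _
  set R : ℕ → H := fun k => ∑' l, ρk k l • G l with hR
  have hRs : ∀ k, HasSum (fun l => ρk k l • G l) (R k) := fun k => (hρks k).hasSum
  have hRstep : ∀ k, R k = R (k + 1) + ρ (k + 1) • G (k + 1) := by
    intro k
    have h1 : HasSum (fun l => ρk (k + 1) l • G l + (if l = k + 1 then ρ (k + 1) • G (k + 1) else 0))
        (R (k + 1) + ρ (k + 1) • G (k + 1)) :=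
      (hRs (k + 1)).add (hasSum_ite_eq (k + 1) (ρ (k + 1) • G (k + 1)))
    have h2 : (fun l => ρk (k + 1) l • G l + (if l = k + 1 then ρ (k + 1) • G (k + 1) else 0)) =
        fun l => ρk k l • G l := by
      funext l
      simp only [hρk]
      by_cases h3 : l = k + 1
      · subst h3; simp
      · by_cases h4 : k + 1 < l
        · have h5 : k < l := by omega
          simp [h3, h4, h5]
        · have h5 : ¬ (k < l) := by omega
          simp [h3, h4, h5]
    rw [h2] at h1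
    exact (hRs k).unique h1
  -- main part
  set F : ℕ → ℕ → H := fun p k => Mst T e h (N p) (rfac N p) (s₀ + p) (jj Q N τ s₀ p k) with hF
  have hFend : ∀ p, F p (Q (p + 1)) = F (p + 1) (Q (p + 1)) := by
    intro p
    simp only [hF]
    rw [jj_start]
    have h1 : jj Q N τ s₀ p (Q (p + 1)) = 2 ^ (s₀ + p + 1) * N p := by
      unfold jj; exact min_eq_right (hslow p)
    rw [h1, Mst_end T e h htree (N p) (N (p + 1)) (hN p)]
    rfl
  set f : ℕ → H := fun k => F (stage Q k) k + R k with hf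
  have hfnext : ∀ k, f (k + 1) = F (stage Q k) (k + 1) + R (k + 1) := by
    intro k
    have h1 := stage_le Q hQ0 k
    have h2 := lt_stage Q hQm k
    simp only [hf]
    rcases Nat.lt_or_ge (k + 1) (Q (stage Q k + 1)) with h3 | h3
    · rw [stage_eq Q hQ0 hQm (k + 1) (stage Q k) (by omega) h3]
    · have h4 : k + 1 = Q (stage Q k + 1) := by omega
      have h5 : Q (stage Q k + 1) < Q (stage Q k + 1 + 1) := hQm (Nat.lt_succ_self _)
      have h6 : stage Q (k + 1) = stage Q k + 1 :=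
        stage_eq Q hQ0 hQm (k + 1) (stage Q k + 1) (by omega) (by omega)
      rw [h6]
      congr 1
      rw [h4]
      exact (hFend (stage Q k)).symm
  have hρkbound : ∀ k l, |ρk k l| ≤ cc s₀ (stage Q k) := by
    intro k l
    simp only [hρk]
    split_ifs with h1
    · obtain ⟨m, rfl⟩ : ∃ m, l = m + 1 := ⟨l - 1, by omega⟩
      refine (rho_bound Q N τ s₀ hτ0 m).trans ?_
      have h2 : cc s₀ (stage Q m) ≤ cc s₀ (stage Q k) :=
        cc_anti s₀ (stage_mono Q hQ0 hQm (by omega))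
      have h3 := cc_nonneg s₀ (stage Q m)
      have h4 := hτ1 m
      nlinarith
    · rw [abs_zero]; exact cc_nonneg _ _
  have hop : ∀ k u v, ‖u‖ = 1 → ‖v‖ = 1 → |⟪f k, T u v⟫_ℝ| ≤ cc s₀ (stage Q k) := by
    intro k u v hu hv
    have hb := rfac_bounds N hN hNsum (stage Q k)
    exact op_bound T hT e nn he h g hh hg hhg (N (stage Q k)) (rfac N (stage Q k))
      (by linarith [hb.1]) hb.2 (s₀ + stage Q k) _ (cc s₀ (stage Q k)) (cc_nonneg _ _)
      (cc_sq _ _) (ρk k) (hρkbound k) (R k) (hRs k) u v hu hv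
  refine ⟨f, fun k => ?_, fun k => ?_⟩
  · set p := stage Q k with hp
    have hQk : Q p ≤ k := stage_le Q hQ0 k
    rcases jj_succ Q N τ s₀ p k hQk with ⟨hsl, hjj, hjlt⟩ | hjj
    · -- rotation step
      set j := jj Q N τ s₀ p k with hj
      have hρ0 : ρ (k + 1) = 0 := by
        simp only [hρdef, rho]
        rw [if_neg]
        rw [← hp, ← hj, hjj]; omega
      have hRR : R k = R (k + 1) := by rw [hRstep k, hρ0, zero_smul, add_zero]
      set w : E2 := h (s₀ + p + 1) (j / N p) with hw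
      set c' : ℝ := Real.sqrt ((2 : ℝ) ^ (s₀ + p + 1 + 1)) with hc'
      have hc'2 : c' * c' = (2 : ℝ) ^ (s₀ + p + 1 + 1) := Real.mul_self_sqrt (by positivity)
      have hc'pos : 0 < c' := Real.sqrt_pos.2 (by positivity)
      set u : E1 := dirU e (N p) (s₀ + p) (j % N p) (j / N p) with hu
      have hi0 : j / N p < 2 ^ (s₀ + p + 1) := Nat.div_lt_of_lt_mul (by rw [Nat.mul_comm]; exact hjlt)
      have hunorm : ‖u‖ = 1 := norm_dirU e nn he _ _ _ _
      have hvnorm : ‖c' • w‖ = 1 := by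
        have h1 : ‖c' • w‖ ^ 2 = 1 := by
          rw [← real_inner_self_eq_norm_sq, real_inner_smul_left, real_inner_smul_right,
            hh (s₀ + p + 1) _ hi0 _ hi0, if_pos rfl, ← mul_assoc, hc'2]
          exact mul_inv_cancel₀ (by positivity)
        have h2 : 0 ≤ ‖c' • w‖ := norm_nonneg _
        nlinarith [h1, h2, sq_nonneg (‖c' • w‖ - 1)]
      set a : ℝ := rfac N p * Real.cos (Real.pi / (2 * N p)) ^ (j % N p) *
        Real.sin (Real.pi / (2 * N p)) with ha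
      have hinner : ⟪f k, T u (c' • w)⟫_ℝ = c' * (a * ((2 : ℝ) ^ (s₀ + p + 1 + 1))⁻¹) := by
        simp only [hf]
        rw [← hp, inner_add_left, map_smul, real_inner_smul_right, real_inner_smul_right]
        have h1 : ⟪R k, T u w⟫_ℝ = 0 := by
          apply inner_R_zero T hT nn g (ρk k) (R k) (hRs k)
          intro l
          rw [hu, inner_n_dirU e nn he, zero_mul]
        rw [h1, mul_zero, add_zero]
        simp only [hF]
        rw [← hj, inner_Mst_dir T hT e nn he h hh (N p) (hN p) (rfac N p) (s₀ + p) j hjlt]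
      refine ⟨u, c' • w, hunorm, hvnorm, fun u' v' hu' hv' => ?_, ?_⟩
      · have h1 := hop k u' v' hu' hv'
        rw [← hp] at h1
        have hl := rfac_pow_ge N hN hNsum p (j % N p) (Nat.mod_lt _ (hN p)).le
        have hang := ang_bounds (N p) (hN p)
        have hsin : 1 / (N p : ℝ) ≤ Real.sin (Real.pi / (2 * N p)) := by
          have h2 := Real.mul_le_sin hang.1 hang.2
          have h3 : 2 / Real.pi * (Real.pi / (2 * N p)) = 1 / (N p : ℝ) := by
            have := Real.pi_pos.ne'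
            field_simp
          rwa [h3] at h2
        have hNp : (0 : ℝ) < N p := by exact_mod_cast hN p
        have ha1 : 3 / 4 * (1 / (N p : ℝ)) ≤ a := by
          rw [ha]
          have : 0 ≤ 1 / (N p : ℝ) := by positivity
          exact mul_le_mul hl hsin this (by linarith)
        have hτle : τ (k + 1) ≤ 1 / 3 * (1 / (N p : ℝ)) := by
          have h2 : 1 / 3 * (1 / (N p : ℝ)) = 1 / (3 * N p) := by field_simp
          rw [h2, le_div_iff₀ (by positivity)]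
          linarith
        have hcc : cc s₀ p ≤ 3 / 2 * (c' * ((2 : ℝ) ^ (s₀ + p + 1 + 1))⁻¹) := by
          have h0 : 0 ≤ 3 / 2 * (c' * ((2 : ℝ) ^ (s₀ + p + 1 + 1))⁻¹) := by positivity
          rw [← sq_le_sq₀ (cc_nonneg s₀ p) h0, cc_sq, mul_pow, mul_pow, sq c', hc'2]
          have h2 : ((2 : ℝ) ^ (s₀ + p + 1))⁻¹ = 2 * ((2 : ℝ) ^ (s₀ + p + 1 + 1))⁻¹ := by
            rw [pow_succ (2 : ℝ) (s₀ + p + 1)]; field_simp
          have h3 : (2 : ℝ) ^ (s₀ + p + 1 + 1) * ((2 : ℝ) ^ (s₀ + p + 1 + 1))⁻¹ ^ 2 =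
              ((2 : ℝ) ^ (s₀ + p + 1 + 1))⁻¹ := by
            field_simp
          rw [h2, h3]
          have h4 : 0 < ((2 : ℝ) ^ (s₀ + p + 1 + 1))⁻¹ := by positivity
          linarith
        have hNinv : 0 < 1 / (N p : ℝ) := by positivity
        rw [hinner]
        have hccn := cc_nonneg s₀ p
        have hX : 0 < c' * ((2 : ℝ) ^ (s₀ + p + 1 + 1))⁻¹ := by positivity
        have ha0 : 0 < a := by linarith [mul_pos (show (0:ℝ) < 3/4 by norm_num) hNinv]
        have habs : |c' * (a * ((2 : ℝ) ^ (s₀ + p + 1 + 1))⁻¹)| =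
            a * (c' * ((2 : ℝ) ^ (s₀ + p + 1 + 1))⁻¹) := by
          rw [abs_of_pos (mul_pos hc'pos (mul_pos ha0 (by positivity)))]
          ring
        rw [habs]
        calc τ (k + 1) * |⟪f k, T u' v'⟫_ℝ| ≤ τ (k + 1) * cc s₀ p := by
              gcongr; exact hτ0 k
          _ ≤ (1 / 3 * (1 / (N p : ℝ))) * (3 / 2 * (c' * ((2 : ℝ) ^ (s₀ + p + 1 + 1))⁻¹)) := by
              apply mul_le_mul hτle hcc hccn (by positivity)
          _ = (1 / 2 * (1 / (N p : ℝ))) * (c' * ((2 : ℝ) ^ (s₀ + p + 1 + 1))⁻¹) := by ring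
          _ ≤ a * (c' * ((2 : ℝ) ^ (s₀ + p + 1 + 1))⁻¹) := by
              apply mul_le_mul_of_nonneg_right _ hX.le
              linarith
      · rw [hfnext k, ← hp, hinner]
        have h1 : F p k - F p (k + 1) = a • T u w := by
          simp only [hF]
          rw [hjj, ← hj]
          exact Mst_succ T e h (N p) (hN p) (rfac N p) (s₀ + p) j hjlt
        have h2 : f k = F p k + R k := rfl
        rw [h2, hRR, map_smul, smul_smul]
        have h3 : c' * (a * ((2 : ℝ) ^ (s₀ + p + 1 + 1))⁻¹) * c' = a := by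
          rw [show c' * (a * ((2 : ℝ) ^ (s₀ + p + 1 + 1))⁻¹) * c' =
            a * ((c' * c') * ((2 : ℝ) ^ (s₀ + p + 1 + 1))⁻¹) by ring, hc'2,
            mul_inv_cancel₀ (by positivity), mul_one]
        rw [h3, ← h1]
        abel
    · -- idle step
      have hFF : F p (k + 1) = F p k := by simp only [hF]; rw [hjj]
      have hρ1 : ρ (k + 1) = τ (k + 1) * cc s₀ p := by
        simp only [hρdef, rho]
        rw [← hp, if_pos hjj]
      have hinner : ⟪f k, T (nn (k + 1)) (g (k + 1))⟫_ℝ = τ (k + 1) * cc s₀ p := by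
        have h2 : f k = F p k + R k := rfl
        rw [h2, hRstep k, inner_add_left, inner_add_left, real_inner_smul_left]
        have h3 : ⟪F p k, T (nn (k + 1)) (g (k + 1))⟫_ℝ = 0 := by
          simp only [hF]
          unfold Mst
          rw [sum_inner]
          apply sum_eq_zero
          intro i _
          rw [hT, real_inner_comm, inner_n_vec e nn he, zero_mul]
        have h4 : ⟪R (k + 1), T (nn (k + 1)) (g (k + 1))⟫_ℝ = 0 := by
          have h5 : HasSum (fun l => ⟪T (nn (k + 1)) (g (k + 1)), ρk (k + 1) l • G l⟫_ℝ)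
              ⟪T (nn (k + 1)) (g (k + 1)), R (k + 1)⟫_ℝ :=
            (innerSL ℝ (T (nn (k + 1)) (g (k + 1)))).hasSum (hRs (k + 1))
          have h6 : (fun l => ⟪T (nn (k + 1)) (g (k + 1)), ρk (k + 1) l • G l⟫_ℝ) =
              fun _ => (0 : ℝ) := by
            funext l
            rw [real_inner_smul_right]
            have h7 := orthonormal_iff_ite.1 hG (k + 1) l
            change ⟪T (nn (k + 1)) (g (k + 1)), G l⟫_ℝ = _ at h7
            rw [h7]
            simp only [hρk]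
            by_cases h8 : k + 1 = l
            · subst h8; simp
            · simp [h8]
          rw [h6] at h5
          rw [real_inner_comm]
          exact h5.unique hasSum_zero
        have h5 : ⟪G (k + 1), T (nn (k + 1)) (g (k + 1))⟫_ℝ = 1 := by
          have h7 := orthonormal_iff_ite.1 hG (k + 1) (k + 1)
          rwa [if_pos rfl] at h7
        rw [h3, h4, h5, hρ1]; ring
      refine ⟨nn (k + 1), g (k + 1), ?_, hg.1 _, fun u' v' hu' hv' => ?_, ?_⟩
      · exact he.1 (Sum.inr (k + 1))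
      · rw [hinner, abs_of_nonneg (mul_nonneg (hτ0 k) (cc_nonneg _ _))]
        exact mul_le_mul_of_nonneg_left (hop k u' v' hu' hv') (hτ0 k)
      · rw [hinner, hfnext k, ← hp, hFF]
        have h2 : f k = F p k + R k := rfl
        rw [h2, hRstep k, hρ1]
        simp only [hGdef]
        abel
  · exact norm_state_ge T hT e nn he h hh (N (stage Q k)) (rfac N (stage Q k)) (s₀ + stage Q k) _
      (fun l hl => rfac_pow_ge N hN hNsum (stage Q k) l hl) (ρk k) (g := g) (R k) (hRs k)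


end nec

/-! ## The concrete space -/

instance : IsProbabilityMeasure leb := ⟨by simp [leb]⟩

lemma memLp_tensor (u v : Lp ℝ 2 leb) :
    MemLp (fun p : ℝ × ℝ => u p.1 * v p.2) 2 (leb.prod leb) := by
  have hm : AEStronglyMeasurable (fun p : ℝ × ℝ => u p.1 * v p.2) (leb.prod leb) :=
    (Lp.aestronglyMeasurable u).comp_fst.mul (Lp.aestronglyMeasurable v).comp_snd
  rw [memLp_two_iff_integrable_sq hm]
  have h1 : Integrable (fun x => u x ^ 2) leb := (memLp_two_iff_integrable_sq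
    (Lp.aestronglyMeasurable u)).1 (Lp.memLp u)
  have h2 : Integrable (fun x => v x ^ 2) leb := (memLp_two_iff_integrable_sq
    (Lp.aestronglyMeasurable v)).1 (Lp.memLp v)
  have h3 := h1.mul_prod h2
  simpa only [mul_pow] using h3

/-- u ⊗ v -/
noncomputable def tens (u v : Lp ℝ 2 leb) : Lp ℝ 2 (leb.prod leb) := (memLp_tensor u v).toLp _

lemma tens_coe (u v : Lp ℝ 2 leb) : tens u v =ᵐ[leb.prod leb] fun p => u p.1 * v p.2 :=
  MemLp.coeFn_toLp _

lemma inner_tens (u v u' v' : Lp ℝ 2 leb) : ⟪tens u v, tens u' v'⟫_ℝ = ⟪u, u'⟫_ℝ * ⟪v, v'⟫_ℝ := by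
  rw [L2.inner_def, L2.inner_def, L2.inner_def, ← integral_prod_mul]
  apply integral_congr_ae
  filter_upwards [tens_coe u v, tens_coe u' v'] with p h1 h2
  rw [h1, h2]
  simp only [RCLike.inner_apply, conj_trivial]
  ring

lemma eq_of_inner_self {H : Type*} [NormedAddCommGroup H] [InnerProductSpace ℝ H] {x y : H}
    (h : ⟪x - y, x - y⟫_ℝ = 0) : x = y := sub_eq_zero.1 (inner_self_eq_zero.1 h)

/-- bilinear version -/
noncomputable def T : Lp ℝ 2 leb →ₗ[ℝ] Lp ℝ 2 leb →ₗ[ℝ] Lp ℝ 2 (leb.prod leb) :=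
  LinearMap.mk₂ ℝ tens
    (fun u u' v => by
      apply eq_of_inner_self
      simp only [inner_sub_left, inner_sub_right, inner_add_left, inner_add_right, inner_tens]
      ring)
    (fun c u v => by
      apply eq_of_inner_self
      simp only [inner_sub_left, inner_sub_right, real_inner_smul_left, real_inner_smul_right,
        inner_tens]
      ring)
    (fun u v v' => by
      apply eq_of_inner_self
      simp only [inner_sub_left, inner_sub_right, inner_add_left, inner_add_right, inner_tens]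
      ring)
    (fun c u v => by
      apply eq_of_inner_self
      simp only [inner_sub_left, inner_sub_right, real_inner_smul_left, real_inner_smul_right,
        inner_tens]
      ring)

lemma T_apply (u v : Lp ℝ 2 leb) : T u v = tens u v := rfl

/-- indicators -/
noncomputable def ind (S : Set ℝ) (hS : MeasurableSet S) : Lp ℝ 2 leb :=
  indicatorConstLp 2 hS (measure_ne_top leb S) (1 : ℝ)

lemma inner_ind (S S' : Set ℝ) (hS : MeasurableSet S) (hS' : MeasurableSet S') :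
    ⟪ind S hS, ind S' hS'⟫_ℝ = leb.real (S ∩ S') :=
  L2.real_inner_indicatorConstLp_one_indicatorConstLp_one hS hS' _ _

lemma leb_real_Ico (a b : ℝ) (ha : 0 ≤ a) (hab : a ≤ b) (hb : b ≤ 1) :
    leb.real (Set.Ico a b) = b - a := by
  unfold leb
  rw [measureReal_restrict_apply measurableSet_Ico, Set.inter_eq_left.2, Real.volume_real_Ico_of_le hab]
  intro x hx
  exact ⟨ha.trans hx.1, hx.2.le.trans hb⟩

noncomputable def ii (a b : ℝ) : Lp ℝ 2 leb := ind (Set.Ico a b) measurableSet_Ico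

lemma inner_ii_self (a b : ℝ) (ha : 0 ≤ a) (hab : a ≤ b) (hb : b ≤ 1) :
    ⟪ii a b, ii a b⟫_ℝ = b - a := by
  unfold ii
  rw [inner_ind, Set.inter_self, leb_real_Ico a b ha hab hb]

lemma inner_ii_disj (a b c d : ℝ) (h : b ≤ c) :
    ⟪ii a b, ii c d⟫_ℝ = 0 := by
  unfold ii
  rw [inner_ind]
  have : Set.Ico a b ∩ Set.Ico c d = ∅ := by
    ext x
    simp only [Set.mem_inter_iff, Set.mem_Ico, Set.mem_empty_iff_false, iff_false]
    rintro ⟨⟨_, h1⟩, ⟨h2, _⟩⟩
    linarith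
  rw [this]
  simp

lemma ii_split (a b c : ℝ) (hab : a ≤ b) (hbc : b ≤ c) : ii a c = ii a b + ii b c := by
  unfold ii ind
  have hd : Disjoint (Set.Ico a b) (Set.Ico b c) := by
    rw [Set.disjoint_left]
    intro x h1 h2
    exact absurd h1.2 (not_lt.2 h2.1)
  have h1 := indicatorConstLp_disjoint_union (p := 2) (μ := leb) (measurableSet_Ico (a := a) (b := b))
    (measurableSet_Ico (a := b) (b := c)) (measure_ne_top _ _) (measure_ne_top _ _) hd (1 : ℝ)
  rw [← h1]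
  congr 1
  rw [Set.Ico_union_Ico_eq_Ico hab hbc]

/-- the dyadic tree -/
noncomputable def hh (s i : ℕ) : Lp ℝ 2 leb :=
  ii ((i : ℝ) / 2 ^ (s + 1)) (((i : ℝ) + 1) / 2 ^ (s + 1))

lemma hh_inner (s : ℕ) (i : ℕ) (hi : i < 2 ^ s) (j : ℕ) (hj : j < 2 ^ s) :
    ⟪hh s i, hh s j⟫_ℝ = if i = j then ((2 : ℝ) ^ (s + 1))⁻¹ else 0 := by
  have hpos : (0 : ℝ) < 2 ^ (s + 1) := by positivity
  split_ifs with h
  · subst h
    unfold hh
    have h1 : ((i : ℝ) + 1) ≤ 2 ^ s := by exact_mod_cast hi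
    rw [inner_ii_self]
    · rw [add_div]; ring
    · positivity
    · gcongr; linarith
    · rw [div_le_one hpos, pow_succ]; nlinarith [pow_pos (show (0:ℝ) < 2 by norm_num) s]
  · rcases lt_or_gt_of_ne h with h1 | h1
    · unfold hh
      apply inner_ii_disj
      gcongr
      exact_mod_cast h1
    · unfold hh
      rw [real_inner_comm]
      apply inner_ii_disj
      gcongr
      exact_mod_cast h1

lemma hh_tree (s i : ℕ) : hh s i = hh (s + 1) (2 * i) + hh (s + 1) (2 * i + 1) := by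
  unfold hh
  have hpos : (0 : ℝ) < 2 ^ (s + 1) := by positivity
  have e1 : (i : ℝ) / 2 ^ (s + 1) = ((2 * i : ℕ) : ℝ) / 2 ^ (s + 1 + 1) := by
    rw [pow_succ (2 : ℝ) (s + 1)]; push_cast; field_simp
  have e2 : ((i : ℝ) + 1) / 2 ^ (s + 1) = (((2 * i + 1 : ℕ) : ℝ) + 1) / 2 ^ (s + 1 + 1) := by
    rw [pow_succ (2 : ℝ) (s + 1)]; push_cast; field_simp; ring
  have e3 : (((2 * i : ℕ) : ℝ) + 1) / 2 ^ (s + 1 + 1) = ((2 * i + 1 : ℕ) : ℝ) / 2 ^ (s + 1 + 1) := by
    push_cast; ring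
  rw [e1, e2, e3]
  apply ii_split
  · gcongr; omega
  · gcongr; linarith

/-- base orthogonal sequence near 1 -/
noncomputable def g0 (l : ℕ) : Lp ℝ 2 leb :=
  ii (1 - 1 / 2 ^ (l + 1)) (1 - 1 / 2 ^ (l + 2))

lemma pow_half_mono {l l' : ℕ} (h : l ≤ l') : (1 : ℝ) / 2 ^ l' ≤ 1 / 2 ^ l := by
  apply one_div_le_one_div_of_le (by positivity)
  exact pow_le_pow_right₀ (by norm_num) h

lemma pow_half_le_one (l : ℕ) : (1 : ℝ) / 2 ^ l ≤ 1 := by
  rw [div_le_one (by positivity)]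
  exact one_le_pow₀ (by norm_num)

noncomputable def gg (l : ℕ) : Lp ℝ 2 leb := Real.sqrt (2 ^ (l + 2)) • g0 l

lemma gg_orthonormal : Orthonormal ℝ gg := by
  rw [orthonormal_iff_ite]
  intro i j
  unfold gg
  rw [real_inner_smul_left, real_inner_smul_right]
  split_ifs with h
  · subst h
    unfold g0
    rw [inner_ii_self]
    · have h1 : (1 : ℝ) - 1 / 2 ^ (i + 2) - (1 - 1 / 2 ^ (i + 1)) = 1 / 2 ^ (i + 2) := by
        rw [pow_succ (2 : ℝ) (i + 1)]; field_simp; ring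
      rw [h1, ← mul_assoc, Real.mul_self_sqrt (by positivity)]
      field_simp
    · linarith [pow_half_le_one (i + 1)]
    · linarith [pow_half_mono (show i + 1 ≤ i + 2 by omega)]
    · have : (0 : ℝ) < 1 / 2 ^ (i + 2) := by positivity
      linarith
  · have h0 : ⟪g0 i, g0 j⟫_ℝ = 0 := by
      rcases lt_or_gt_of_ne h with h1 | h1
      · unfold g0
        apply inner_ii_disj
        linarith [pow_half_mono (show i + 2 ≤ j + 1 by omega)]
      · unfold g0
        rw [real_inner_comm]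
        apply inner_ii_disj
        linarith [pow_half_mono (show j + 2 ≤ i + 1 by omega)]
    rw [h0]; simp

lemma hh_gg (s i : ℕ) (hi : i < 2 ^ s) (l : ℕ) : ⟪hh s i, gg l⟫_ℝ = 0 := by
  unfold gg hh g0
  rw [real_inner_smul_right, inner_ii_disj, mul_zero]
  have h1 : ((i : ℝ) + 1) ≤ 2 ^ s := by exact_mod_cast hi
  have h2 : ((i : ℝ) + 1) / 2 ^ (s + 1) ≤ 1 / 2 := by
    rw [div_le_iff₀ (by positivity), pow_succ]; linarith
  have h3 := pow_half_mono (show 1 ≤ l + 1 by omega)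
  rw [pow_one] at h3
  linarith

/-- first-variable family -/
noncomputable def ee (s i : ℕ) : Lp ℝ 2 leb := gg (Encodable.encode (Sum.inl (s, i) : (ℕ × ℕ) ⊕ ℕ))
noncomputable def nn (l : ℕ) : Lp ℝ 2 leb := gg (Encodable.encode (Sum.inr l : (ℕ × ℕ) ⊕ ℕ))

lemma ee_orthonormal : Orthonormal ℝ (Sum.elim (fun p : ℕ × ℕ => ee p.1 p.2) nn) := by
  have h1 : (Sum.elim (fun p : ℕ × ℕ => ee p.1 p.2) nn) =
      gg ∘ (Encodable.encode : (ℕ × ℕ) ⊕ ℕ → ℕ) := by
    funext x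
    rcases x with ⟨a, b⟩ | l <;> rfl
  rw [h1]
  exact gg_orthonormal.comp _ Encodable.encode_injective

/-- density of the product functions -/
lemma eq_zero_of_inner_tens (F : Lp ℝ 2 (leb.prod leb))
    (hF : ∀ u v : Lp ℝ 2 leb, ⟪F, tens u v⟫_ℝ = 0) : F = 0 := by
  have hint : Integrable (F : ℝ × ℝ → ℝ) (leb.prod leb) :=
    (Lp.memLp F).integrable (by norm_num)
  have hrect : ∀ A B : Set ℝ, MeasurableSet A → MeasurableSet B →
      ∫ x in A ×ˢ B, F x ∂(leb.prod leb) = 0 := by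
    intro A B hA hB
    have h1 := hF (ind A hA) (ind B hB)
    rw [L2.inner_def] at h1
    rw [← h1, ← integral_indicator (hA.prod hB)]
    apply integral_congr_ae
    have hA' : (fun p : ℝ × ℝ => (ind A hA : ℝ → ℝ) p.1) =ᵐ[leb.prod leb]
        fun p => A.indicator (fun _ => (1 : ℝ)) p.1 :=
      Measure.quasiMeasurePreserving_fst.ae_eq_comp indicatorConstLp_coeFn
    have hB' : (fun p : ℝ × ℝ => (ind B hB : ℝ → ℝ) p.2) =ᵐ[leb.prod leb]
        fun p => B.indicator (fun _ => (1 : ℝ)) p.2 :=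
      Measure.quasiMeasurePreserving_snd.ae_eq_comp indicatorConstLp_coeFn
    filter_upwards [tens_coe (ind A hA) (ind B hB), hA', hB'] with p h2 h3 h4
    rw [h2, h3, h4]
    by_cases ha : p.1 ∈ A <;> by_cases hb : p.2 ∈ B <;>
      simp [Set.indicator, ha, hb]
  have key : ∀ S, MeasurableSet S → ∫ x in S, F x ∂(leb.prod leb) = 0 := by
    intro S hS
    refine MeasurableSpace.induction_on_inter
      (C := fun S _ => ∫ x in S, F x ∂(leb.prod leb) = 0)
      generateFrom_prod.symm isPiSystem_prod ?_ ?_ ?_ ?_ S hS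
    · simp
    · rintro _ ⟨A, hA, B, hB, rfl⟩
      exact hrect A B hA hB
    · intro S hS h
      have h1 := integral_add_compl hS hint
      have h2 := hrect Set.univ Set.univ MeasurableSet.univ MeasurableSet.univ
      rw [Set.univ_prod_univ, setIntegral_univ] at h2
      rw [h, h2, zero_add] at h1
      exact h1
    · intro f hd hm hf
      rw [integral_iUnion hm hd hint.integrableOn]
      simp [hf]
  have h0 : (F : ℝ × ℝ → ℝ) =ᵐ[leb.prod leb] 0 :=
    hint.ae_eq_zero_of_forall_setIntegral_eq_zero (fun s hs _ => key s hs)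
  exact (Lp.eq_zero_iff_ae_eq_zero).2 h0


/-! ## Assembly -/

lemma mem_dict_iff (g : Lp ℝ 2 (leb.prod leb)) :
    g ∈ bilinearDictionary ↔ ∃ u v : Lp ℝ 2 leb, ‖u‖ = 1 ∧ ‖v‖ = 1 ∧ g = T u v := by
  constructor
  · rintro ⟨u, v, hu, hv, h⟩
    refine ⟨u, v, hu, hv, ?_⟩
    apply Lp.ext
    rw [T_apply]
    have h' : (g : ℝ × ℝ → ℝ) =ᵐ[leb.prod leb] fun p => u p.1 * v p.2 := h
    exact h'.trans (tens_coe u v).symm
  · rintro ⟨u, v, hu, hv, rfl⟩
    exact ⟨u, v, hu, hv, tens_coe u v⟩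

lemma norm_T (u v : Lp ℝ 2 leb) (hu : ‖u‖ = 1) (hv : ‖v‖ = 1) : ‖T u v‖ = 1 := by
  have h1 : ‖T u v‖ ^ 2 = 1 := by
    rw [← real_inner_self_eq_norm_sq, T_apply, inner_tens, real_inner_self_eq_norm_sq,
      real_inner_self_eq_norm_sq, hu, hv]
    norm_num
  have h2 : 0 ≤ ‖T u v‖ := norm_nonneg _
  nlinarith [h1, h2, sq_nonneg (‖T u v‖ - 1)]

/-- every element of the dictionary is a unit vector -/
lemma norm_of_mem_dict (g : Lp ℝ 2 (leb.prod leb)) (hg : g ∈ bilinearDictionary) : ‖g‖ = 1 := by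
  obtain ⟨u, v, hu, hv, rfl⟩ := (mem_dict_iff g).1 hg
  exact norm_T u v hu hv

lemma dict_nonempty : Nonempty bilinearDictionary :=
  ⟨⟨T (gg 0) (gg 0), (mem_dict_iff _).2 ⟨gg 0, gg 0, gg_orthonormal.1 0, gg_orthonormal.1 0, rfl⟩⟩⟩

/-- only zero is orthogonal to the dictionary (its span is dense) -/
lemma eq_zero_of_inner_dict (F : Lp ℝ 2 (leb.prod leb))
    (hF : ∀ g ∈ bilinearDictionary, ⟪F, g⟫_ℝ = 0) : F = 0 := by
  apply eq_zero_of_inner_tens
  intro u v
  by_cases hu : u = 0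
  · rw [← T_apply, hu, map_zero, LinearMap.zero_apply, inner_zero_right]
  by_cases hv : v = 0
  · rw [← T_apply, hv, map_zero, inner_zero_right]
  have hu' : ‖u‖ ≠ 0 := norm_ne_zero_iff.2 hu
  have hv' : ‖v‖ ≠ 0 := norm_ne_zero_iff.2 hv
  have h1 := hF (T (‖u‖⁻¹ • u) (‖v‖⁻¹ • v)) ((mem_dict_iff _).2 ⟨_, _, by
    rw [norm_smul, norm_inv, norm_norm, inv_mul_cancel₀ hu'], by
    rw [norm_smul, norm_inv, norm_norm, inv_mul_cancel₀ hv'], rfl⟩)
  rw [map_smul, map_smul, LinearMap.smul_apply, real_inner_smul_right, real_inner_smul_right] at h1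
  rw [← T_apply]
  have h2 : ‖u‖⁻¹ ≠ 0 := inv_ne_zero hu'
  have h3 : ‖v‖⁻¹ ≠ 0 := inv_ne_zero hv'
  rcases mul_eq_zero.1 h1 with h | h
  · exact absurd h (by assumption)
  · rcases mul_eq_zero.1 h with h | h
    · exact absurd h (by assumption)
    · exact h

lemma bddAbove_dict (F : Lp ℝ 2 (leb.prod leb)) :
    BddAbove (Set.range (fun g : bilinearDictionary => |⟪F, (g : Lp ℝ 2 (leb.prod leb))⟫_ℝ|)) := by
  refine ⟨‖F‖, ?_⟩
  rintro _ ⟨g, rfl⟩
  have h1 := abs_real_inner_le_norm F (g : Lp ℝ 2 (leb.prod leb))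
  rw [norm_of_mem_dict g g.2, mul_one] at h1
  exact h1

/-- the greedy condition with a supremum, unfolded -/
lemma greedy_iff (F φ : Lp ℝ 2 (leb.prod leb)) (t : ℝ) (ht : 0 ≤ t) :
    t * supInner F ≤ |ip F φ| ↔
      ∀ g ∈ bilinearDictionary, t * |⟪F, g⟫_ℝ| ≤ |⟪F, φ⟫_ℝ| := by
  unfold supInner ip
  constructor
  · intro h g hg
    refine le_trans ?_ h
    exact mul_le_mul_of_nonneg_left (le_ciSup (bddAbove_dict F) ⟨g, hg⟩) ht
  · intro h
    rcases ht.eq_or_lt with h0 | h0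
    · rw [← h0, zero_mul]; exact abs_nonneg _
    · have := dict_nonempty
      rw [← le_div_iff₀' h0]
      apply ciSup_le
      intro g
      rw [le_div_iff₀' h0]
      exact h g g.2

/-- **Main theorem.** The Weak Greedy Algorithm with weakness sequence `τ` converges for the
bilinear dictionary if and only if `τ` is not in the class `𝒱`. -/
theorem result (τ : ℕ → ℝ) (hτ : ∀ k, 1 ≤ k → 0 ≤ τ k ∧ τ k ≤ 1) :
    WGAConverges τ ↔ ¬ ClassV τ := by
  have hτ0 : ∀ k, 0 ≤ τ (k + 1) := fun k => (hτ (k + 1) (by omega)).1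
  have hτ1 : ∀ k, τ (k + 1) ≤ 1 := fun k => (hτ (k + 1) (by omega)).2
  constructor
  · intro hconv hV
    obtain ⟨s₀, Q, N, hQ0, hQm, hN, hslow, hNsum, hsum⟩ := schedule τ hV
    have hslow' : ∀ p, 2 ^ (s₀ + p + 1) * N p ≤ cnt Q N τ p (Q (p + 1)) := by
      intro p
      refine (hslow p).trans (le_of_eq ?_)
      unfold cnt
      congr
    obtain ⟨f, hf, hnorm⟩ := exists_bad_run T inner_tens ee nn ee_orthonormal hh gg
      (fun s i hi j hj => hh_inner s i hi j hj) (fun s i _ => hh_tree s i) gg_orthonormal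
      (fun s i hi l => hh_gg s i hi l) τ hτ0 hτ1 s₀ Q N hQ0 hQm hN hslow' hNsum hsum
    have hres : IsResidualSequence τ (f 0) f := by
      refine ⟨rfl, fun m => ?_⟩
      obtain ⟨u, v, hu, hv, hgr, hstep⟩ := hf m
      refine ⟨T u v, (mem_dict_iff _).2 ⟨u, v, hu, hv, rfl⟩, ?_, hstep⟩
      rw [greedy_iff _ _ _ (hτ0 m)]
      intro g hg
      obtain ⟨u', v', hu', hv', rfl⟩ := (mem_dict_iff g).1 hg
      exact hgr u' v' hu' hv'
    have h1 := hconv (f 0) f hres
    have h2 : Tendsto f atTop (𝓝 0) := by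
      have h3 : Tendsto (fun m => f 0 - (f 0 - f m)) atTop (𝓝 (f 0 - f 0)) :=
        tendsto_const_nhds.sub h1
      simpa using h3
    have h3 : Tendsto (fun m => ‖f m‖ ^ 2) atTop (𝓝 (‖(0 : Lp ℝ 2 (leb.prod leb))‖ ^ 2)) :=
      (h2.norm).pow 2
    rw [norm_zero, zero_pow two_ne_zero] at h3
    have h4 := ge_of_tendsto' h3 hnorm
    norm_num at h4
  · intro hV f r hr
    obtain ⟨h0, hstep⟩ := hr
    have h1 : Tendsto r atTop (𝓝 0) := by
      apply wga_converges bilinearDictionary norm_of_mem_dict eq_zero_of_inner_dict τ hτ0 hV r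
      intro m
      obtain ⟨φ, hφ, hgr, hs⟩ := hstep m
      exact ⟨φ, hφ, (greedy_iff _ _ _ (hτ0 m)).1 hgr, hs⟩
    have h2 : Tendsto (fun m => f - r m) atTop (𝓝 (f - 0)) := tendsto_const_nhds.sub h1
    simpa using h2

end Pool.Agent.Results.MP_8ec86e_an.BilinearWGA
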